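import Pool.Agent.Work.MP_8da9ea_nt.CD.Defs

/-!
# Closure dimension: the addition theorem for numbers
-/

set_option autoImplicit false

namespace Pool.Agent.Work.MP_8da9ea_nt.CD

/-- roots of quadratic polynomials over an algebraically closed subfield -/
theorem Add_root {L : IntermediateField ℚ ℂ} (hL : AC L) {a b c x : ℂ} (ha : a ∈ L) (hb : b ∈ L)
    (hc : c ∈ L) (h : a * x ^ 2 + b * x + c = 0) (hne : ¬ (a = 0 ∧ b = 0)) : x ∈ L := by
  apply hL
  refine ⟨Polynomial.C (⟨a, ha⟩ : L) * Polynomial.X ^ 2 + Polynomial.C (⟨b, hb⟩ : L) *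
    Polynomial.X + Polynomial.C (⟨c, hc⟩ : L), ?_, ?_⟩
  · intro h0
    apply hne
    have h2 := congrArg (fun p => Polynomial.coeff p 2) h0
    have h1 := congrArg (fun p => Polynomial.coeff p 1) h0
    simp only [Polynomial.coeff_add, Polynomial.coeff_C_mul, Polynomial.coeff_X_pow,
      Polynomial.coeff_X, Polynomial.coeff_C, Polynomial.coeff_zero] at h1 h2
    norm_num at h1 h2
    exact ⟨congrArg Subtype.val h2, congrArg Subtype.val h1⟩
  · simp only [map_add, map_mul, Polynomial.aeval_C, Polynomial.aeval_X, map_pow]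
    exact h

/-- translation by a lattice point -/
theorem Add_lat {τ : ℂ} (hτ : 0 < τ.im) {L : IntermediateField ℚ ℂ} (hL : Base τ L) {a b : ℂ}
    (ha : a ∈ Lam τ) (hb : Good τ L b) : Good τ L (b + a) := by
  obtain ⟨m, n, rfl⟩ := mem_Lam.1 ha
  rcases hb with hb | ⟨h1, h2⟩
  · exact Or.inl (Fx.Lam_add hb ha)
  · refine Or.inr ⟨?_, ?_⟩
    · rw [wp_add_lp hτ]
      exact h1
    · rw [zt_add_lp hτ]
      have hm : (m : ℂ) ∈ L := intCast_mem L m
      have hn : (n : ℂ) ∈ L := intCast_mem L n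
      have h3 := L.mul_mem hL.et (L.add_mem hm (L.mul_mem hn hL.tau))
      have h4 := L.mul_mem hL.kap hn
      exact L.sub_mem (L.add_mem h2 h3) h4

theorem prf_Add : StAdd := by
  intro τ hτ L hL a b ha hb
  by_cases ha0 : a ∈ Lam τ
  · rw [add_comm]
    exact Add_lat hτ hL ha0 hb
  by_cases hb0 : b ∈ Lam τ
  · exact Add_lat hτ hL hb0 ha
  by_cases hab0 : a + b ∈ Lam τ
  · exact Or.inl hab0
  obtain ⟨hwa, hza⟩ := ha.resolve_left ha0
  obtain ⟨hwb, hzb⟩ := hb.resolve_left hb0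
  have h2 : (2 : ℂ) ∈ L := ofNat_mem L 2
  have h4 : (4 : ℂ) ∈ L := ofNat_mem L 4
  have hS := L.add_mem hwa hwb
  have hP := L.mul_mem hwa hwb
  have hQ := L.add_mem hP (L.div_mem hL.g2 h4)
  have key : wp 1 τ (a + b) ∈ L := by
    refine Add_root hL.ac (a := -(wp 1 τ a - wp 1 τ b) ^ 2)
      (b := 4 * (wp 1 τ a * wp 1 τ b) * (wp 1 τ a + wp 1 τ b) - gg3 τ -
        2 * ((wp 1 τ a + wp 1 τ b) * (wp 1 τ a * wp 1 τ b + gg2 τ / 4)))
      (c := -(gg3 τ * (wp 1 τ a + wp 1 τ b) + (wp 1 τ a * wp 1 τ b + gg2 τ / 4) ^ 2))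
      (L.neg_mem (pow_mem (L.sub_mem hwa hwb) 2))
      (L.sub_mem (L.sub_mem (L.mul_mem (L.mul_mem h4 hP) hS) hL.g3)
        (L.mul_mem h2 (L.mul_mem hS hQ)))
      (L.neg_mem (L.add_mem (L.mul_mem hL.g3 hS) (pow_mem hQ 2))) ?_ ?_
    · have h := Fx.wp_add_rel hτ ha0 hb0 hab0
      linear_combination h
    · rintro ⟨h1, h2⟩
      have e1 : wp 1 τ a = wp 1 τ b := by
        have h3 : (wp 1 τ a - wp 1 τ b) ^ 2 = 0 := by linear_combination -h1
        exact sub_eq_zero.1 (pow_eq_zero_iff two_ne_zero |>.1 h3)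
      have e2 : wpd τ a = 0 := by
        have h4 := wpd_sq hτ ha0
        have h5 : wpd τ a ^ 2 = 0 := by
          rw [h4]
          rw [← e1] at h2
          linear_combination h2
        exact pow_eq_zero_iff two_ne_zero |>.1 h5
      have k1 := Fx.zt_add_lin hτ ha0 hb0 hab0
      have k2 := Fx.zt_add_lin hτ hb0 ha0 (by rwa [add_comm])
      have k3 := Fx.zt_add_quad hτ ha0 hb0 hab0
      have k4 := Fx.zt_add_sq hτ ha0 hb0 hab0
      have hy := wpd_sq hτ ha0
      rw [e2] at hy k1 k3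
      rw [← e1] at k4
      set s := zt 1 τ (a + b) - zt 1 τ a - zt 1 τ b
      set x := wp 1 τ a
      set x3 := wp 1 τ (a + b)
      have e4 : 12 * x ^ 2 = gg2 τ := by
        linear_combination (-1) * k3 + 2 * s * k1 - 4 * (x - x3) * k4
      apply Fx.disc_ne hτ
      have e5 : gg3 τ = -8 * x ^ 3 := by
        rw [← e4] at hy
        linear_combination hy
      rw [← e4, e5]
      ring
  refine Or.inr ⟨key, ?_⟩
  have hs : zt 1 τ (a + b) - zt 1 τ a - zt 1 τ b ∈ L := by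
    refine Add_root hL.ac (a := 1) (b := 0)
      (c := -(wp 1 τ a + wp 1 τ b + wp 1 τ (a + b))) L.one_mem L.zero_mem
      (L.neg_mem (L.add_mem hS key)) ?_ ?_
    · have h := Fx.zt_add_sq hτ ha0 hb0 hab0
      linear_combination h
    · intro h
      exact one_ne_zero h.1
  have h5 := L.add_mem (L.add_mem hs hza) hzb
  have e : zt 1 τ (a + b) - zt 1 τ a - zt 1 τ b + zt 1 τ a + zt 1 τ b = zt 1 τ (a + b) := by ring
  rwa [e] at h5

end Pool.Agent.Work.MP_8da9ea_nt.CD
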