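import Pool.Agent.Work.MP_8da9ea_nt.CD.Defs

/-!
# Integral combinations in the larger field of constants
-/

set_option autoImplicit false

namespace Pool.Agent.Work.MP_8da9ea_nt.CD

theorem Lin_rank (KK V : Submodule ℚ ℂ) [FiniteDimensional ℚ V] :
    Module.finrank ℚ (V.map KK.mkQ) + Module.finrank ℚ (V ⊓ KK : Submodule ℚ ℂ) =
      Module.finrank ℚ V := by
  set f : V →ₗ[ℚ] (ℂ ⧸ KK) := KK.mkQ.domRestrict V with hf
  have hrange : LinearMap.range f = V.map KK.mkQ := LinearMap.range_domRestrict _ _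
  have hker : Module.finrank ℚ (LinearMap.ker f) = Module.finrank ℚ (V ⊓ KK : Submodule ℚ ℂ) := by
    have h1 : LinearMap.ker f = ((V ⊓ KK).comap V.subtype) := by
      ext x
      simp only [hf, LinearMap.mem_ker, LinearMap.domRestrict_apply, Submodule.mkQ_apply,
        Submodule.Quotient.mk_eq_zero, Submodule.mem_comap, Submodule.subtype_apply,
        Submodule.mem_inf]
      exact ⟨fun h => ⟨x.2, h⟩, fun h => h.2⟩
    rw [h1]
    exact (Submodule.comapSubtypeEquivOfLe (inf_le_left : V ⊓ KK ≤ V)).finrank_eq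
  have h1 := LinearMap.finrank_range_add_finrank_ker f
  rw [hrange, hker] at h1
  exact h1

theorem Lin_modDim (K : IntermediateField ℚ ℂ) {s : ℕ} (t : Fin s → ℂ) :
    modDim K t + Module.finrank ℚ (Submodule.span ℚ (Set.range t) ⊓
      Subalgebra.toSubmodule K.toSubalgebra : Submodule ℚ ℂ) =
      Module.finrank ℚ (Submodule.span ℚ (Set.range t)) := by
  have hfdV : FiniteDimensional ℚ (Submodule.span ℚ (Set.range t)) :=
    FiniteDimensional.span_of_finite ℚ (Set.finite_range _)
  rw [← Lin_rank (Subalgebra.toSubmodule K.toSubalgebra) (Submodule.span ℚ (Set.range t)),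
    Submodule.map_span, ← Set.range_comp]
  rfl

theorem prf_Lin : StLin := by
  classical
  intro K K' hKK' s t
  set V : Submodule ℚ ℂ := Submodule.span ℚ (Set.range t) with hV
  set k : Submodule ℚ ℂ := Subalgebra.toSubmodule K.toSubalgebra with hk
  set k' : Submodule ℚ ℂ := Subalgebra.toSubmodule K'.toSubalgebra with hk'
  have hkk : k ≤ k' := fun x hx => hKK' hx
  have hfdV : FiniteDimensional ℚ V := FiniteDimensional.span_of_finite ℚ (Set.finite_range _)
  set W : Submodule ℚ ℂ := V ⊓ k' with hW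
  have hfdW : FiniteDimensional ℚ W := Submodule.finiteDimensional_of_le inf_le_left
  set R : Submodule ℚ (ℂ ⧸ k) := W.map k.mkQ with hR
  have hfdR : FiniteDimensional ℚ R := inferInstance
  let b := Module.finBasis ℚ R
  have hb : ∀ i, ∃ (w : ℂ) (N : ℕ) (A : Fin s → ℤ), N ≠ 0 ∧ k.mkQ w = (b i : ℂ ⧸ k) ∧ w ∈ k' ∧
      (N : ℂ) * w = ∑ l, (A l : ℂ) * t l := by
    intro i
    obtain ⟨w, hw, hwb⟩ := Submodule.mem_map.1 (b i).2
    obtain ⟨c, hc⟩ := (Submodule.mem_span_range_iff_exists_fun ℚ).1 hw.1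
    obtain ⟨N, A, hN, hA⟩ := clear_rat c
    refine ⟨w, N, A, hN, hwb, hw.2, ?_⟩
    rw [← hc, Finset.mul_sum]
    refine Finset.sum_congr rfl fun l _ => ?_
    rw [Rat.smul_def, ← mul_assoc]
    congr 1
    have := hA l
    have h2 : ((A l : ℚ) : ℂ) = ((N * c l : ℚ) : ℂ) := by rw [this]
    push_cast at h2
    exact h2.symm
  choose w N A hN hwb hwk hA using hb
  refine ⟨Module.finrank ℚ R, A, ?_, ?_, ?_⟩
  · intro i
    rw [← hA i]
    exact mul_mem (natCast_mem _ _) (hwk i)
  · intro c hc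
    have h1 : ∑ i, ((c i : ℚ) * (N i : ℚ)) • w i ∈ k := by
      have h2 : ∑ i, ((c i : ℚ) * (N i : ℚ)) • w i = ∑ i, (c i : ℂ) * ∑ l, (A i l : ℂ) * t l := by
        refine Finset.sum_congr rfl fun i _ => ?_
        rw [← hA i, Rat.smul_def]
        push_cast
        ring
      rw [h2]
      exact hc
    have h2 : ∑ i, ((c i : ℚ) * (N i : ℚ)) • b i = 0 := by
      apply Subtype.ext
      have h3 : ((∑ i, ((c i : ℚ) * (N i : ℚ)) • b i : R) : ℂ ⧸ k) =
          k.mkQ (∑ i, ((c i : ℚ) * (N i : ℚ)) • w i) := by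
        rw [map_sum, Submodule.coe_sum]
        refine Finset.sum_congr rfl fun i _ => ?_
        rw [Submodule.coe_smul, map_smul, hwb]
      rw [h3, Submodule.mkQ_apply, (Submodule.Quotient.mk_eq_zero k).2 h1]
      rfl
    have h4 := Fintype.linearIndependent_iff.1 b.linearIndependent _ h2
    funext i
    have h5 := h4 i
    rcases mul_eq_zero.1 h5 with h6 | h6
    · exact_mod_cast h6
    · exact absurd (by exact_mod_cast h6) (hN i)
  · have h1 := Lin_modDim K t
    have h2 := Lin_modDim K' t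
    have h3 := Lin_rank k W
    rw [← hV, ← hk] at h1
    rw [← hV, ← hk'] at h2
    have h4 : W ⊓ k = V ⊓ k := by
      rw [hW, inf_assoc, inf_eq_right.2 hkk]
    rw [h4] at h3
    rw [← hW] at h2
    rw [← hR] at h3
    omega

end Pool.Agent.Work.MP_8da9ea_nt.CD
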