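import Pool.Agent.Work.MP_8da9ea_nt.CD.Defs

/-!
# Item Lin2: endomorphism combinations in the larger field
-/

set_option autoImplicit false

namespace Pool.Agent.Work.MP_8da9ea_nt.CD

open Submodule

/-- rank and kernel of the map to the quotient -/
lemma Lin2_rank (V KK : Submodule ℚ ℂ) [FiniteDimensional ℚ V] :
    Module.finrank ℚ (V.map KK.mkQ) + Module.finrank ℚ (V ⊓ KK : Submodule ℚ ℂ) =
      Module.finrank ℚ V := by
  set f : V →ₗ[ℚ] (ℂ ⧸ KK) := KK.mkQ.domRestrict V with hf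
  have hrange : LinearMap.range f = V.map KK.mkQ := by
    rw [hf, LinearMap.range_domRestrict]
  have hker : Module.finrank ℚ (LinearMap.ker f) = Module.finrank ℚ (V ⊓ KK : Submodule ℚ ℂ) := by
    have h1 : LinearMap.ker f = ((V ⊓ KK).comap V.subtype) := by
      ext x
      simp only [hf, LinearMap.mem_ker, LinearMap.domRestrict_apply, Submodule.mkQ_apply,
        Submodule.Quotient.mk_eq_zero, Submodule.mem_comap, Submodule.subtype_apply,
        Submodule.mem_inf]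
      exact ⟨fun h => ⟨x.2, h⟩, fun h => h.2⟩
    rw [h1]
    exact (Submodule.comapSubtypeEquivOfLe (inf_le_left : V ⊓ KK ≤ V)).finrank_eq
  have h1 := LinearMap.finrank_range_add_finrank_ker f
  rw [hrange, hker] at h1
  exact h1

lemma Lin2_two (V KK KK' : Submodule ℚ ℂ) [FiniteDimensional ℚ V] (h : KK ≤ KK') :
    Module.finrank ℚ (V.map KK.mkQ) = Module.finrank ℚ (V.map KK'.mkQ) +
      Module.finrank ℚ ((V ⊓ KK' : Submodule ℚ ℂ).map KK.mkQ) := by
  have h1 := Lin2_rank V KK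
  have h2 := Lin2_rank V KK'
  have hfd : FiniteDimensional ℚ (V ⊓ KK' : Submodule ℚ ℂ) :=
    Submodule.finiteDimensional_of_le inf_le_left
  have h3 := Lin2_rank (V ⊓ KK') KK
  have h4 : V ⊓ KK' ⊓ KK = V ⊓ KK := by rw [inf_assoc, inf_eq_right.2 h]
  rw [h4] at h3
  omega

lemma Lin2_lam_add {τ a b : ℂ} (ha : a ∈ Lam τ) (hb : b ∈ Lam τ) : a + b ∈ Lam τ := by
  obtain ⟨m, n, rfl⟩ := mem_Lam.1 ha
  obtain ⟨m', n', rfl⟩ := mem_Lam.1 hb
  exact mem_Lam.2 ⟨m + m', n + n', by push_cast; ring⟩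

lemma Lin2_lam_mul {τ a : ℂ} (N : ℤ) (ha : a ∈ Lam τ) : (N : ℂ) * a ∈ Lam τ := by
  obtain ⟨m, n, rfl⟩ := mem_Lam.1 ha
  exact mem_Lam.2 ⟨N * m, N * n, by push_cast; ring⟩

lemma Lin2_int_add {τ a b : ℂ} (ha : IsInt τ a) (hb : IsInt τ b) : IsInt τ (a + b) :=
  ⟨Lin2_lam_add ha.1 hb.1, by rw [add_mul]; exact Lin2_lam_add ha.2 hb.2⟩

lemma Lin2_int_mul {τ a : ℂ} (N : ℤ) (ha : IsInt τ a) : IsInt τ ((N : ℂ) * a) :=
  ⟨Lin2_lam_mul N ha.1, by rw [mul_assoc]; exact Lin2_lam_mul N ha.2⟩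

lemma Lin2_int_zero (τ : ℂ) : IsInt τ 0 :=
  ⟨mem_Lam.2 ⟨0, 0, by simp⟩, mem_Lam.2 ⟨0, 0, by simp⟩⟩

lemma Lin2_int_one (τ : ℂ) : IsInt τ 1 :=
  ⟨mem_Lam.2 ⟨1, 0, by simp⟩, mem_Lam.2 ⟨0, 1, by simp⟩⟩

/-- `A τ` is an integral endomorphism if `A τ² + B τ + C = 0` -/
lemma Lin2_int_quad {τ : ℂ} {A B C : ℤ} (h : (A : ℂ) * τ ^ 2 + (B : ℂ) * τ + (C : ℂ) = 0) :
    IsInt τ ((A : ℂ) * τ) :=
  ⟨mem_Lam.2 ⟨0, A, by simp⟩, mem_Lam.2 ⟨-C, -B, by push_cast; linear_combination h⟩⟩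

/-- clearing denominators -/
lemma Lin2_clear {τ : ℂ} {n : ℕ} (z : Fin n → ℂ) (S : Set ℂ)
    (hS : ∀ x ∈ S, ∃ N : ℤ, N ≠ 0 ∧ ∃ g : Fin n → ℂ, (∀ i, IsInt τ (g i)) ∧
      (N : ℂ) * x = ∑ i, g i * z i) (x : ℂ) (hx : x ∈ span ℚ S) :
    ∃ N : ℤ, N ≠ 0 ∧ ∃ g : Fin n → ℂ, (∀ i, IsInt τ (g i)) ∧ (N : ℂ) * x = ∑ i, g i * z i := by
  induction hx using Submodule.span_induction with
  | mem x hx => exact hS x hx
  | zero => exact ⟨1, one_ne_zero, 0, fun _ => Lin2_int_zero τ, by simp⟩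
  | add x y _ _ hx hy =>
    obtain ⟨N, hN, g, hg, h1⟩ := hx
    obtain ⟨M, hM, g', hg', h2⟩ := hy
    refine ⟨N * M, mul_ne_zero hN hM, fun i => (M : ℂ) * g i + (N : ℂ) * g' i,
      fun i => Lin2_int_add (Lin2_int_mul M (hg i)) (Lin2_int_mul N (hg' i)), ?_⟩
    have h3 : ∑ i, ((M : ℂ) * g i + (N : ℂ) * g' i) * z i =
        (M : ℂ) * ∑ i, g i * z i + (N : ℂ) * ∑ i, g' i * z i := by
      rw [Finset.mul_sum, Finset.mul_sum, ← Finset.sum_add_distrib]
      exact Finset.sum_congr rfl fun i _ => by ring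
    rw [h3, ← h1, ← h2]
    push_cast
    ring
  | smul q x _ hx =>
    obtain ⟨N, hN, g, hg, h1⟩ := hx
    refine ⟨(q.den : ℤ) * N, mul_ne_zero (by exact_mod_cast q.den_nz) hN,
      fun i => (q.num : ℂ) * g i, fun i => Lin2_int_mul q.num (hg i), ?_⟩
    have h3 : ∑ i, ((q.num : ℂ) * g i) * z i = (q.num : ℂ) * ∑ i, g i * z i := by
      rw [Finset.mul_sum]
      exact Finset.sum_congr rfl fun i _ => by ring
    rw [h3, ← h1, Rat.smul_def]
    have h4 : (q.den : ℂ) * q = q.num := by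
      have := q.den_mul_eq_num
      exact_mod_cast this
    push_cast
    linear_combination (N : ℂ) * x * h4

/-- a finite family that spans -/
lemma Lin2_basis (W : Submodule ℚ ℂ) [FiniteDimensional ℚ W] :
    ∃ (m : ℕ) (y : Fin m → ℂ), span ℚ (Set.range y) = W := by
  refine ⟨Module.finrank ℚ W, fun i => (Module.finBasis ℚ W i : ℂ), ?_⟩
  have h1 : Set.range (fun i => (Module.finBasis ℚ W i : ℂ)) =
      W.subtype '' (Set.range (Module.finBasis ℚ W)) := by
    rw [← Set.range_comp]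
    rfl
  rw [h1, ← Submodule.map_span, (Module.finBasis ℚ W).span_eq, Submodule.map_top,
    Submodule.range_subtype]

/-- the space -/
lemma Lin2_space (K K' : IntermediateField ℚ ℂ) (hKK' : K ≤ K') (ω₁ ω₂ : ℂ) (hω : ω₁ ≠ 0)
    (n : ℕ) (p : Fin n → ℂ) : ∃ V : Submodule ℚ ℂ, FiniteDimensional ℚ V ∧
      (∀ x ∈ V, ∃ N : ℤ, N ≠ 0 ∧ ∃ g : Fin n → ℂ, (∀ i, IsInt (ω₂ / ω₁) (g i)) ∧
        (N : ℂ) * x = ∑ i, g i * (p i / ω₁)) ∧
      ∀ (m : ℕ) (y : Fin m → ℂ),
        span ℚ (Set.range y) = V ⊓ Subalgebra.toSubmodule K'.toSubalgebra →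
        modDim2 K ω₁ ω₂ p ≤ modDim2 K' ω₁ ω₂ p + modDim2 K ω₁ ω₂ (fun i => ω₁ * y i) := by
  classical
  set KK : Submodule ℚ ℂ := Subalgebra.toSubmodule K.toSubalgebra with hKKd
  set KK' : Submodule ℚ ℂ := Subalgebra.toSubmodule K'.toSubalgebra with hKKd'
  have hle : KK ≤ KK' := fun x hx => hKK' hx
  have hbase : ∀ x ∈ Set.range (fun i => p i / ω₁), ∃ N : ℤ, N ≠ 0 ∧ ∃ g : Fin n → ℂ,
      (∀ i, IsInt (ω₂ / ω₁) (g i)) ∧ (N : ℂ) * x = ∑ i, g i * (p i / ω₁) := by
    rintro x ⟨i, rfl⟩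
    refine ⟨1, one_ne_zero, Pi.single i 1, ?_, ?_⟩
    · intro j
      by_cases h : j = i
      · subst h
        rw [Pi.single_eq_same]
        exact Lin2_int_one _
      · rw [Pi.single_eq_of_ne h]
        exact Lin2_int_zero _
    · rw [Finset.sum_eq_single i]
      · simp
      · intro j _ hj
        rw [Pi.single_eq_of_ne hj, zero_mul]
      · intro h
        exact absurd (Finset.mem_univ _) h
  by_cases hCM : IsCM ω₁ ω₂
  · set V : Submodule ℚ ℂ := span ℚ (Set.range (fun i => p i / ω₁) ∪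
      Set.range (fun i => ω₂ / ω₁ * (p i / ω₁))) with hV
    have hfd : FiniteDimensional ℚ V :=
      FiniteDimensional.span_of_finite ℚ ((Set.finite_range _).union (Set.finite_range _))
    refine ⟨V, hfd, ?_, ?_⟩
    · apply Lin2_clear
      rintro x (hx | ⟨i, rfl⟩)
      · exact hbase x hx
      · obtain ⟨A, B, C, hA, hABC⟩ := hCM
        refine ⟨A, hA, Pi.single i ((A : ℂ) * (ω₂ / ω₁)), ?_, ?_⟩
        · intro j
          by_cases h : j = i
          · subst h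
            rw [Pi.single_eq_same]
            exact Lin2_int_quad hABC
          · rw [Pi.single_eq_of_ne h]
            exact Lin2_int_zero _
        · rw [Finset.sum_eq_single i]
          · rw [Pi.single_eq_same]
            ring
          · intro j _ hj
            rw [Pi.single_eq_of_ne hj, zero_mul]
          · intro h
            exact absurd (Finset.mem_univ _) h
    · intro m y hy
      have hmap : ∀ (L : IntermediateField ℚ ℂ), modDim2 L ω₁ ω₂ p =
          Module.finrank ℚ (V.map (Subalgebra.toSubmodule L.toSubalgebra).mkQ) := by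
        intro L
        unfold modDim2
        rw [if_pos hCM, hV, Submodule.map_span, Set.image_union, ← Set.range_comp,
          ← Set.range_comp]
        rfl
      rw [hmap K, hmap K', Lin2_two V KK KK' hle, ← hy]
      refine Nat.add_le_add_left ?_ _
      unfold modDim2
      rw [if_pos hCM, Submodule.map_span, ← Set.range_comp]
      have hfd2 : FiniteDimensional ℚ (span ℚ
          (Set.range (fun i => (Submodule.Quotient.mk (ω₁ * y i / ω₁) : ℂ ⧸ KK)) ∪
          Set.range (fun i => (Submodule.Quotient.mk (ω₂ / ω₁ * (ω₁ * y i / ω₁)) : ℂ ⧸ KK)))) :=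
        FiniteDimensional.span_of_finite ℚ ((Set.finite_range _).union (Set.finite_range _))
      refine Submodule.finrank_mono (span_mono ?_)
      rintro x ⟨i, rfl⟩
      left
      refine ⟨i, ?_⟩
      simp only [mul_div_cancel_left₀ _ hω]
      rfl
  · set V : Submodule ℚ ℂ := span ℚ (Set.range (fun i => p i / ω₁)) with hV
    have hfd : FiniteDimensional ℚ V :=
      FiniteDimensional.span_of_finite ℚ (Set.finite_range _)
    refine ⟨V, hfd, ?_, ?_⟩
    · exact Lin2_clear _ _ hbase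
    · intro m y hy
      have hmap : ∀ (L : IntermediateField ℚ ℂ), modDim2 L ω₁ ω₂ p =
          2 * Module.finrank ℚ (V.map (Subalgebra.toSubmodule L.toSubalgebra).mkQ) := by
        intro L
        unfold modDim2
        rw [if_neg hCM, hV, Submodule.map_span, ← Set.range_comp]
        rfl
      rw [hmap K, hmap K', Lin2_two V KK KK' hle, ← hy, mul_add]
      refine Nat.add_le_add_left ?_ _
      unfold modDim2
      rw [if_neg hCM, Submodule.map_span, ← Set.range_comp]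
      have hfd2 : FiniteDimensional ℚ (span ℚ
          (Set.range (fun i => (Submodule.Quotient.mk (ω₁ * y i / ω₁) : ℂ ⧸ KK)))) :=
        FiniteDimensional.span_of_finite ℚ (Set.finite_range _)
      refine Nat.mul_le_mul_left 2 (Submodule.finrank_mono (span_mono ?_))
      rintro x ⟨i, rfl⟩
      refine ⟨i, ?_⟩
      simp only [mul_div_cancel_left₀ _ hω]
      rfl

theorem prf_Lin2 : StLin2 := by
  classical
  intro K K' hKK' ω₁ ω₂ him hK n p
  have hω : ω₁ ≠ 0 := by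
    intro h
    apply him
    rw [h]
    simp
  obtain ⟨V, hVfd, hV1, hV2⟩ := Lin2_space K K' hKK' ω₁ ω₂ hω n p
  have hWfd : FiniteDimensional ℚ
      (V ⊓ Subalgebra.toSubmodule K'.toSubalgebra : Submodule ℚ ℂ) :=
    Submodule.finiteDimensional_of_le inf_le_left
  obtain ⟨m, y, hy⟩ := Lin2_basis (V ⊓ Subalgebra.toSubmodule K'.toSubalgebra)
  have hV3 := hV2 m y hy
  have hyV : ∀ i, y i ∈ V ∧ y i ∈ K' := by
    intro i
    have h1 : y i ∈ span ℚ (Set.range y) := subset_span ⟨i, rfl⟩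
    rw [hy] at h1
    exact ⟨h1.1, h1.2⟩
  obtain ⟨J, hJc, hJ⟩ := modDim2_le K him hK (fun i => ω₁ * y i)
  have h1 : ∀ i, ∃ N : ℤ, N ≠ 0 ∧ ∃ g : Fin n → ℂ, (∀ i, IsInt (ω₂ / ω₁) (g i)) ∧
      (N : ℂ) * y i = ∑ j, g j * (p j / ω₁) := fun i => hV1 _ (hyV i).1
  choose N hN g hg hgy using h1
  let e : J ≃ Fin J.card := J.equivFin
  refine ⟨J.card, fun i => g (e.symm i), fun i j => hg _ j, ?_, ?_, ?_⟩
  · intro i
    rw [← hgy]
    exact mul_mem (intCast_mem K' _) (hyV _).2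
  · intro c hc hsum
    have h2 := hJ (fun j => c (e j) * (N j : ℂ)) (by
      intro j
      obtain ⟨M, hM, h3, h4⟩ := hc (e j)
      refine ⟨M, hM, ?_, ?_⟩
      · rw [show (M : ℂ) * (c (e j) * (N j : ℂ)) = (N j : ℂ) * ((M : ℂ) * c (e j)) by ring]
        exact Lin2_lam_mul _ h3
      · rw [show (M : ℂ) * (c (e j) * (N j : ℂ)) * (ω₂ / ω₁) =
          (N j : ℂ) * ((M : ℂ) * c (e j) * (ω₂ / ω₁)) by ring]
        exact Lin2_lam_mul _ h4) (by
      have h3 : ∑ j : J, c (e j) * (N j : ℂ) * (ω₁ * y j / ω₁) =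
          ∑ i, c i * ∑ j, g (e.symm i) j * (p j / ω₁) := by
        rw [← e.sum_comp (fun i => c i * ∑ j, g (e.symm i) j * (p j / ω₁))]
        refine Finset.sum_congr rfl fun j _ => ?_
        rw [Equiv.symm_apply_apply, ← hgy, mul_div_cancel_left₀ _ hω]
        ring
      rw [h3]
      exact hsum)
    funext i
    have h3 := congrFun h2 (e.symm i)
    rw [Equiv.apply_symm_apply] at h3
    rcases mul_eq_zero.1 h3 with h4 | h4
    · exact h4
    · exact absurd (by exact_mod_cast h4) (hN (e.symm i))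
  · omega

end Pool.Agent.Work.MP_8da9ea_nt.CD
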