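import Pool.Agent.Work.MP_8da9ea_nt.CD.Defs

/-!
# Closure dimension: item Lin3
-/

set_option autoImplicit false

namespace Pool.Agent.Work.MP_8da9ea_nt.CD

open Submodule

lemma Lin3_pair_indep {τ : ℂ} (hτ : τ.im ≠ 0) : LinearIndependent ℚ ![(1 : ℂ), τ] := by
  rw [LinearIndependent.pair_iff]
  intro s t h
  rw [Rat.smul_def, Rat.smul_def, mul_one] at h
  exact lin_ne hτ h

lemma Lin3_range_pair (τ : ℂ) : Set.range ![(1 : ℂ), τ] = {1, τ} := by
  ext x
  constructor
  · rintro ⟨i, rfl⟩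
    fin_cases i
    · exact Or.inl rfl
    · exact Or.inr rfl
  · rintro (rfl | rfl)
    · exact ⟨0, rfl⟩
    · exact ⟨1, rfl⟩

/-- multiplication by `ω₁` does not change the dimension -/
lemma Lin3_scale {n : ℕ} (ω₁ ω₂ : ℂ) (h1 : ω₁ ≠ 0) (p : Fin n → ℂ) :
    Module.finrank ℚ (span ℚ (Set.range p ∪ {ω₁, ω₂})) =
      Module.finrank ℚ (span ℚ (Set.range (fun j => p j / ω₁) ∪ {1, ω₂ / ω₁})) := by
  set e : ℂ ≃ₗ[ℚ] ℂ := (LinearEquiv.smulOfNeZero ℂ ℂ ω₁ h1).restrictScalars ℚ with he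
  have hee : ∀ x, e x = ω₁ * x := fun x => rfl
  have h2 : (span ℚ (Set.range (fun j => p j / ω₁) ∪ {1, ω₂ / ω₁})).map
      (e : ℂ →ₗ[ℚ] ℂ) = span ℚ (Set.range p ∪ {ω₁, ω₂}) := by
    rw [Submodule.map_span, Set.image_union, ← Set.range_comp, Set.image_pair]
    congr 1
    congr 1
    · congr 1
      funext j
      show ω₁ * (p j / ω₁) = p j
      field_simp
    · show {ω₁ * 1, ω₁ * (ω₂ / ω₁)} = _
      rw [mul_one, mul_div_cancel₀ _ h1]
  rw [← h2]
  exact LinearEquiv.finrank_map_eq e _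

/-- the dimension splits -/
lemma Lin3_split (K : IntermediateField ℚ ℂ) {τ : ℂ} (hτ : τ ∈ K) {n : ℕ} (z : Fin n → ℂ) :
    Module.finrank ℚ (span ℚ (Set.range z ∪ {1, τ})) =
      Module.finrank ℚ (span ℚ (Set.range fun j => (Submodule.Quotient.mk (z j) :
        ℂ ⧸ Subalgebra.toSubmodule K.toSubalgebra))) +
      Module.finrank ℚ (span ℚ (Set.range z ∪ {1, τ}) ⊓
        Subalgebra.toSubmodule K.toSubalgebra : Submodule ℚ ℂ) := by
  set V : Submodule ℚ ℂ := span ℚ (Set.range z ∪ {1, τ}) with hV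
  set KK : Submodule ℚ ℂ := Subalgebra.toSubmodule K.toSubalgebra with hKK
  have hfdV : FiniteDimensional ℚ V :=
    FiniteDimensional.span_of_finite ℚ ((Set.finite_range _).union
      ((Set.finite_singleton _).insert _))
  set f : V →ₗ[ℚ] (ℂ ⧸ KK) := KK.mkQ.domRestrict V with hf
  have hrange : LinearMap.range f = span ℚ (Set.range fun l => (Submodule.Quotient.mk (z l) :
      ℂ ⧸ KK)) := by
    rw [hf, LinearMap.range_domRestrict, hV, Submodule.map_span, Set.image_union,
      Set.image_pair, ← Set.range_comp]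
    have h0 : KK.mkQ 1 = 0 := by
      rw [Submodule.mkQ_apply, Submodule.Quotient.mk_eq_zero]
      exact one_mem K
    have h0' : KK.mkQ τ = 0 := by
      rw [Submodule.mkQ_apply, Submodule.Quotient.mk_eq_zero]
      exact hτ
    rw [h0, h0', Set.pair_eq_singleton, span_union, span_zero_singleton, sup_bot_eq]
    rfl
  have hker : Module.finrank ℚ (LinearMap.ker f) = Module.finrank ℚ (V ⊓ KK : Submodule ℚ ℂ) := by
    have h1 : LinearMap.ker f = ((V ⊓ KK).comap V.subtype) := by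
      ext x
      simp only [hf, LinearMap.mem_ker, LinearMap.domRestrict_apply, Submodule.mkQ_apply,
        Submodule.Quotient.mk_eq_zero, Submodule.mem_comap, Submodule.subtype_apply,
        Submodule.mem_inf]
      exact ⟨fun h => ⟨x.2, h⟩, fun h => h.2⟩
    rw [h1]
    exact (Submodule.comapSubtypeEquivOfLe (inf_le_left : V ⊓ KK ≤ V)).finrank_eq
  have h1 := LinearMap.finrank_range_add_finrank_ker f
  rw [hrange, hker] at h1
  exact h1.symm

/-- elements of the span: clearing denominators -/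
lemma Lin3_clear {n : ℕ} (z : Fin n → ℂ) (τ x : ℂ) (hx : x ∈ span ℚ (Set.range z ∪ {1, τ})) :
    ∃ (N : ℤ) (A : Fin n → ℤ) (r s : ℚ), N ≠ 0 ∧
      ∑ l, (A l : ℂ) * z l = N * (x - r - s * τ) := by
  rw [span_union, Submodule.mem_sup] at hx
  obtain ⟨y, hy, w, hw, rfl⟩ := hx
  obtain ⟨c, hc⟩ := (Submodule.mem_span_range_iff_exists_fun ℚ).1 hy
  obtain ⟨r, s, hrs⟩ := Submodule.mem_span_pair.1 hw
  obtain ⟨N, A, hN, hA⟩ := clear_rat c
  refine ⟨N, A, r, s, by exact_mod_cast hN, ?_⟩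
  have h1 : y + w - r - s * τ = y := by
    rw [← hrs, Rat.smul_def, Rat.smul_def]
    ring
  rw [h1, ← hc, Finset.mul_sum]
  refine Finset.sum_congr rfl fun l _ => ?_
  rw [Rat.smul_def, ← mul_assoc]
  congr 1
  have := hA l
  have h2 : ((A l : ℚ) : ℂ) = ((N * c l : ℚ) : ℂ) := by rw [this]
  push_cast at h2
  rw [h2, Int.cast_natCast]

theorem prf_Lin3 : StLin3 := by
  classical
  intro K' ω₁ ω₂ him hτ hcm n p
  have h1 : ω₁ ≠ 0 := by
    rintro rfl
    rw [div_zero] at him
    exact him rfl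
  set τ : ℂ := ω₂ / ω₁ with hτdef
  set z : Fin n → ℂ := fun j => p j / ω₁ with hz
  set V : Submodule ℚ ℂ := span ℚ (Set.range z ∪ {1, τ}) with hV
  set KK : Submodule ℚ ℂ := Subalgebra.toSubmodule K'.toSubalgebra with hKK
  have hfdV : FiniteDimensional ℚ V :=
    FiniteDimensional.span_of_finite ℚ ((Set.finite_range _).union
      ((Set.finite_singleton _).insert _))
  set W : Submodule ℚ ℂ := V ⊓ KK with hW
  have hfdW : FiniteDimensional ℚ W := Submodule.finiteDimensional_of_le inf_le_left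
  let b := Module.finBasis ℚ W
  obtain ⟨J, hJ, hJc⟩ := exists_rel_basis ![(1 : ℂ), τ] (Lin3_pair_indep him)
    (fun i => (b i : ℂ))
  have h1W : (1 : ℂ) ∈ W := ⟨subset_span (Or.inr (Or.inl rfl)), one_mem K'⟩
  have hτW : τ ∈ W := ⟨subset_span (Or.inr (Or.inr rfl)), hτ⟩
  have hspan : span ℚ (Set.range (fun i => (b i : ℂ)) ∪ Set.range ![(1 : ℂ), τ]) = W := by
    apply le_antisymm
    · rw [span_le, Lin3_range_pair]
      rintro x (⟨i, rfl⟩ | (rfl | rfl))
      · exact (b i).2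
      · exact h1W
      · exact hτW
    · intro x hx
      have h2 : (⟨x, hx⟩ : W) ∈ span ℚ (Set.range b) := by rw [b.span_eq]; trivial
      obtain ⟨c, hc⟩ := (Submodule.mem_span_range_iff_exists_fun ℚ).1 h2
      have h3 : ((∑ i, c i • b i : W) : ℂ) = x := congrArg Subtype.val hc
      rw [← h3]
      have h4 : ((∑ i, c i • b i : W) : ℂ) = ∑ i, c i • (b i : ℂ) := by simp
      rw [h4]
      exact sum_mem fun i _ => smul_mem _ _ (subset_span (Or.inl ⟨i, rfl⟩))
  rw [hspan] at hJc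
  have hcl : ∀ i, ∃ (N : ℤ) (A : Fin n → ℤ) (r s : ℚ), N ≠ 0 ∧
      ∑ l, (A l : ℂ) * z l = N * ((b i : ℂ) - r - s * τ) := fun i =>
    Lin3_clear z τ (b i) (b i).2.1
  choose N A r s hN hA using hcl
  let e : Fin J.card ≃ J := J.equivFin.symm
  refine ⟨J.card, fun i => A (e i), ?_, ?_, ?_⟩
  · intro i
    show ∑ j, (A (e i) j : ℂ) * z j ∈ K'
    rw [hA]
    refine mul_mem (intCast_mem _ _) (sub_mem (sub_mem (b (e i)).2.2 ?_) (mul_mem ?_ hτ))
    · exact SubfieldClass.ratCast_mem K' _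
    · exact SubfieldClass.ratCast_mem K' _
  · intro c u v hc
    have hc' : ∑ i, (c i : ℂ) * (N (e i) * ((b (e i) : ℂ) - r (e i) - s (e i) * τ)) =
        u + v * τ := by
      rw [← hc]
      refine Finset.sum_congr rfl fun i _ => ?_
      rw [← hA]
    rw [Fintype.linearIndependent_iff] at hJ
    set g : J → ℚ := fun j => c (e.symm j) * N j with hg
    have h5 := hJ (Sum.elim ![-(∑ j : J, g j * r j) - u, -(∑ j : J, g j * s j) - v] g) (by
      rw [Fintype.sum_sum_type]
      simp only [Sum.elim_inl, Sum.elim_inr, Fin.sum_univ_two, Matrix.cons_val_zero,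
        Matrix.cons_val_one, Rat.smul_def, mul_one]
      have h6 : ∑ i, (c i : ℂ) * (N (e i) * ((b (e i) : ℂ) - r (e i) - s (e i) * τ)) =
          ∑ j : J, (g j : ℂ) * ((b j : ℂ) - r j - s j * τ) := by
        rw [← Equiv.sum_comp e]
        refine Finset.sum_congr rfl fun i _ => ?_
        simp only [hg, Equiv.symm_apply_apply]
        push_cast
        ring
      rw [h6] at hc'
      have h7 : ∑ j : J, (g j : ℂ) * ((b j : ℂ) - r j - s j * τ) =
          ∑ j : J, (g j : ℂ) * (b j : ℂ) - ∑ j : J, (g j : ℂ) * r j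
            - (∑ j : J, (g j : ℂ) * s j) * τ := by
        rw [Finset.sum_mul, ← Finset.sum_sub_distrib, ← Finset.sum_sub_distrib]
        refine Finset.sum_congr rfl fun j _ => ?_
        ring
      rw [h7] at hc'
      push_cast
      linear_combination hc')
    funext i
    have h8 := h5 (Sum.inr (e i))
    simp only [Sum.elim_inr, hg, Equiv.symm_apply_apply, mul_eq_zero, Int.cast_eq_zero] at h8
    exact h8.resolve_right (hN _)
  · have hs := Lin3_split K' hτ z
    have hsc := Lin3_scale ω₁ ω₂ h1 p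
    unfold pDim modDim2
    rw [if_neg hcm, hsc]
    rw [← hV, ← hKK, ← hW] at hs
    rw [← hτdef, ← hz, ← hV, ← hKK]
    have hs' : Module.finrank ℚ V = Module.finrank ℚ (span ℚ (Set.range fun i =>
        (Submodule.Quotient.mk (p i / ω₁) : ℂ ⧸ KK))) + Module.finrank ℚ W := hs
    omega

end Pool.Agent.Work.MP_8da9ea_nt.CD
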