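import Pool.Agent.Work.MP_8da9ea_nt.CD.Defs

set_option autoImplicit false

namespace Pool.Agent.Work.MP_8da9ea_nt.CD

lemma Mul_zero_mem {τ : ℂ} : (0 : ℂ) ∈ Lam τ := mem_Lam.2 ⟨0, 0, by simp⟩

lemma Mul_one_mem {τ : ℂ} : (1 : ℂ) ∈ Lam τ := mem_Lam.2 ⟨1, 0, by simp⟩

lemma Mul_add_mem {τ v w : ℂ} (hv : v ∈ Lam τ) (hw : w ∈ Lam τ) : v + w ∈ Lam τ := by
  rw [mem_Lam] at *
  obtain ⟨m, n, rfl⟩ := hv
  obtain ⟨m', n', rfl⟩ := hw
  exact ⟨m + m', n + n', by push_cast; ring⟩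

lemma Mul_sub_mem {τ v w : ℂ} (hv : v ∈ Lam τ) (hw : w ∈ Lam τ) : v - w ∈ Lam τ := by
  rw [mem_Lam] at *
  obtain ⟨m, n, rfl⟩ := hv
  obtain ⟨m', n', rfl⟩ := hw
  exact ⟨m - m', n - n', by push_cast; ring⟩

lemma Mul_int_mem {τ v : ℂ} (k : ℤ) (hv : v ∈ Lam τ) : (k : ℂ) * v ∈ Lam τ := by
  rw [mem_Lam] at *
  obtain ⟨m, n, rfl⟩ := hv
  exact ⟨k * m, k * n, by push_cast; ring⟩

lemma Mul_nat_mem {τ v : ℂ} (k : ℕ) (hv : v ∈ Lam τ) : (k : ℂ) * v ∈ Lam τ := by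
  simpa using Mul_int_mem (k : ℤ) hv

/-- an integral endomorphism maps the lattice to itself -/
lemma Mul_end_mem {τ g v : ℂ} (hg : IsInt τ g) (hv : v ∈ Lam τ) : g * v ∈ Lam τ := by
  rw [mem_Lam] at hv
  obtain ⟨m, n, rfl⟩ := hv
  have h := Mul_add_mem (Mul_int_mem m hg.1) (Mul_int_mem n hg.2)
  have e : g * ((m : ℂ) + n * τ) = m * g + n * (g * τ) := by ring
  rw [e]
  exact h

/-- a torsion point which is not mapped into the lattice -/
lemma Mul_exists_tor {τ g : ℂ} (hτ : 0 < τ.im) (hg : g ∈ Lam τ) (hg0 : g ≠ 0) :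
    ∃ (N : ℕ) (z : ℂ), 0 < N ∧ (N : ℂ) * z = 1 ∧ g * z ∉ Lam τ := by
  rw [mem_Lam] at hg
  obtain ⟨u, v, rfl⟩ := hg
  set N : ℕ := u.natAbs + v.natAbs + 1 with hN
  have hN0 : (N : ℂ) ≠ 0 := by
    have : N ≠ 0 := by omega
    exact_mod_cast this
  refine ⟨N, 1 / (N : ℂ), by omega, by field_simp, fun h => ?_⟩
  rw [mem_Lam] at h
  obtain ⟨m, n, h⟩ := h
  have h1 : ((u - N * m : ℤ) : ℂ) + ((v - N * n : ℤ) : ℂ) * τ = 0 := by
    have h2 : (u : ℂ) + v * τ = N * (m + n * τ) := by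
      rw [← h]
      field_simp
    push_cast
    linear_combination h2
  have h3 := congrArg Complex.im h1
  simp only [Complex.add_im, Complex.intCast_im, Complex.mul_im, Complex.intCast_re, zero_mul,
    add_zero, zero_add, Complex.zero_im] at h3
  have h4 : ((v - N * n : ℤ) : ℝ) = 0 := by
    rcases mul_eq_zero.1 h3 with h5 | h5
    · exact h5
    · exact absurd h5 hτ.ne'
  have h5 : v - N * n = 0 := by exact_mod_cast h4
  rw [h5] at h1
  have h6 : ((u - N * m : ℤ) : ℂ) = 0 := by simpa using h1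
  have h7 : u - N * m = 0 := by exact_mod_cast h6
  have key : ∀ x y : ℤ, x - N * y = 0 → x.natAbs < N → x = 0 := by
    intro x y hxy hx
    have e : x = N * y := by omega
    have e2 : x.natAbs = N * y.natAbs := by
      rw [e, Int.natAbs_mul, Int.natAbs_natCast]
    rcases Nat.eq_zero_or_pos y.natAbs with hy | hy
    · rw [hy, mul_zero] at e2
      exact Int.natAbs_eq_zero.1 e2
    · have : N ≤ x.natAbs := by
        rw [e2]
        exact Nat.le_mul_of_pos_right N hy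
      omega
  have hu : u = 0 := key u m h7 (by omega)
  have hv : v = 0 := key v n h5 (by omega)
  exact hg0 (by rw [hu, hv]; simp)

theorem prf_Mul (hAdd : StAdd) (hTor : StTor) (hSum : StSum) : StMul := by
  intro τ hτ L hL g a hg haL hGa
  by_cases hga : g * a ∈ Lam τ
  · exact Or.inl hga
  have hg0 : g ≠ 0 := by
    rintro rfl
    exact hga (by rw [zero_mul]; exact Mul_zero_mem)
  obtain ⟨W, c, c₁, c₀, hW, hz⟩ := hSum τ hτ g hg hg0
  have hgL : g ∈ L := by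
    obtain ⟨u, v, e⟩ := mem_Lam.1 hg.1
    rw [e]
    exact add_mem (intCast_mem L u) (mul_mem (intCast_mem L v) hL.tau)
  have hnot : ∀ z : ℂ, g * z ∉ Lam τ → ∀ w ∈ W, z + w ∉ Lam τ := by
    intro z hgz w hw h
    refine hgz ?_
    have h1 := Mul_sub_mem (Mul_end_mem hg h) (hW w hw).1
    have e : g * (z + w) - g * w = g * z := by ring
    rwa [e] at h1
  have hval : ∀ z : ℂ, z ∉ Lam τ → Good τ L z → wp 1 τ z ∈ L ∧ zt 1 τ z ∈ L := by
    intro z hz' h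
    rcases h with h | h
    · exact absurd h hz'
    · exact h
  -- torsion points
  have htor : ∀ (N : ℕ) (z : ℂ), 0 < N → (N : ℂ) * z ∈ Lam τ → g * z ∉ Lam τ →
      c ∈ L ∧ c₁ * z + c₀ ∈ L := by
    intro N z hN hNz hgz
    have h1 : ∀ w ∈ W, wp 1 τ (z + w) ∈ L ∧ zt 1 τ (z + w) ∈ L := by
      intro w hw
      obtain ⟨M, hM, hMw⟩ := (hW w hw).2
      refine hval _ (hnot z hgz w hw) (hTor τ hτ L hL (M * N) (z + w) (Nat.mul_pos hM hN) ?_)
      have h2 := Mul_add_mem (Mul_nat_mem M hNz) (Mul_nat_mem N hMw)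
      have e : ((M * N : ℕ) : ℂ) * (z + w) = M * (N * z) + N * (M * w) := by
        push_cast
        ring
      rw [e]
      exact h2
    have h2 : wp 1 τ (g * z) ∈ L ∧ zt 1 τ (g * z) ∈ L := by
      refine hval _ hgz (hTor τ hτ L hL N (g * z) hN ?_)
      have h3 := Mul_end_mem hg hNz
      have e : g * ((N : ℂ) * z) = N * (g * z) := by ring
      rwa [e] at h3
    obtain ⟨h3, h4⟩ := hz z hgz
    constructor
    · have e : c = g ^ 2 * wp 1 τ (g * z) - ∑ w ∈ W, wp 1 τ (z + w) := by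
        rw [h3]
        ring
      rw [e]
      exact sub_mem (mul_mem (pow_mem hgL 2) h2.1) (sum_mem fun w hw => (h1 w hw).1)
    · have e : c₁ * z + c₀ = g * zt 1 τ (g * z) - ∑ w ∈ W, zt 1 τ (z + w) := by
        rw [h4]
        ring
      rw [e]
      exact sub_mem (mul_mem hgL h2.2) (sum_mem fun w hw => (h1 w hw).2)
  obtain ⟨N, z, hN, hNz, hgz⟩ := Mul_exists_tor hτ hg.1 hg0
  have hNz' : (N : ℂ) * z ∈ Lam τ := by
    rw [hNz]
    exact Mul_one_mem
  have hzL : z ∈ L := by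
    have hN0 : (N : ℂ) ≠ 0 := by exact_mod_cast hN.ne'
    have e : z = (N : ℂ)⁻¹ := by
      field_simp
      rw [mul_comm]
      exact hNz
    rw [e]
    exact inv_mem (natCast_mem L N)
  obtain ⟨hc, k1⟩ := htor N z hN hNz' hgz
  obtain ⟨-, k2⟩ := htor N (z + 1) hN
    (by
      rw [mul_add]
      exact Mul_add_mem hNz' (Mul_nat_mem N Mul_one_mem))
    (fun h => hgz (by
      have h1 := Mul_sub_mem h hg.1
      have e : g * (z + 1) - g = g * z := by ring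
      rwa [e] at h1))
  have hc1 : c₁ ∈ L := by
    have e : c₁ = (c₁ * (z + 1) + c₀) - (c₁ * z + c₀) := by ring
    rw [e]
    exact sub_mem k2 k1
  have hc0 : c₀ ∈ L := by
    have e : c₀ = (c₁ * z + c₀) - c₁ * z := by ring
    rw [e]
    exact sub_mem k1 (mul_mem hc1 hzL)
  have h1 : ∀ w ∈ W, wp 1 τ (a + w) ∈ L ∧ zt 1 τ (a + w) ∈ L := by
    intro w hw
    obtain ⟨M, hM, hMw⟩ := (hW w hw).2
    exact hval _ (hnot a hga w hw) (hAdd τ hτ L hL a w hGa (hTor τ hτ L hL M w hM hMw))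
  obtain ⟨h3, h4⟩ := hz a hga
  refine Or.inr ⟨?_, ?_⟩
  · have e : wp 1 τ (g * a) = (g ^ 2)⁻¹ * (∑ w ∈ W, wp 1 τ (a + w) + c) := by
      rw [← h3]
      field_simp
    rw [e]
    exact mul_mem (inv_mem (pow_mem hgL 2)) (add_mem (sum_mem fun w hw => (h1 w hw).1) hc)
  · have e : zt 1 τ (g * a) = g⁻¹ * (∑ w ∈ W, zt 1 τ (a + w) + c₁ * a + c₀) := by
      rw [← h4]
      field_simp
    rw [e]
    exact mul_mem (inv_mem hgL)
      (add_mem (add_mem (sum_mem fun w hw => (h1 w hw).2) (mul_mem hc1 haL)) hc0)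

end Pool.Agent.Work.MP_8da9ea_nt.CD
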