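import Pool.Agent.Work.MP_8da9ea_nt.CD.Defs

/-!
# The sum formulas for a multiplication
-/

set_option autoImplicit false

namespace Pool.Agent.Work.MP_8da9ea_nt.CD

open Complex Filter Topology

/-! ### the lattice -/

lemma Sum_add {τ a b : ℂ} (ha : a ∈ Lam τ) (hb : b ∈ Lam τ) : a + b ∈ Lam τ := by
  obtain ⟨m, n, rfl⟩ := mem_Lam.1 ha
  rwa [add_comm, add_mem_Lam_iff]

lemma Sum_sub {τ a b : ℂ} (ha : a ∈ Lam τ) (hb : b ∈ Lam τ) : a - b ∈ Lam τ := by
  rw [sub_eq_add_neg]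
  exact Sum_add ha (neg_mem_Lam.2 hb)

lemma Sum_int {τ a : ℂ} (m : ℤ) (ha : a ∈ Lam τ) : (m : ℂ) * a ∈ Lam τ := by
  obtain ⟨p, q, rfl⟩ := mem_Lam.1 ha
  exact mem_Lam.2 ⟨m * p, m * q, by push_cast; ring⟩

lemma Sum_mul {τ g w : ℂ} (hg : IsInt τ g) (hw : w ∈ Lam τ) : g * w ∈ Lam τ := by
  obtain ⟨p, q, rfl⟩ := mem_Lam.1 hw
  have h : g * (p + q * τ) = p * g + q * (g * τ) := by ring
  rw [h]
  exact Sum_add (Sum_int p hg.1) (Sum_int q hg.2)

lemma Sum_wp {τ z l : ℂ} (hτ : 0 < τ.im) (hl : l ∈ Lam τ) : wp 1 τ (z + l) = wp 1 τ z := by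
  obtain ⟨m, n, rfl⟩ := mem_Lam.1 hl
  exact wp_add_lp hτ z m n

/-- the norm -/
lemma Sum_norm {τ g : ℂ} (hτ : 0 < τ.im) (hg : IsInt τ g) (hg0 : g ≠ 0) :
    ∃ N : ℕ, 0 < N ∧ ∀ z : ℂ, g * z ∈ Lam τ → (N : ℂ) * z ∈ Lam τ := by
  obtain ⟨a, b, h1⟩ := mem_Lam.1 hg.1
  obtain ⟨c, d, h2⟩ := mem_Lam.1 hg.2
  have h3 : g * ((a + d : ℤ) - g) = ((a * d - b * c : ℤ) : ℂ) := by
    push_cast
    linear_combination -(g * h1 + b * h2 - d * h1)
  have hD : a * d - b * c ≠ 0 := by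
    intro hD
    rw [hD, Int.cast_zero, mul_eq_zero] at h3
    rcases h3 with h3 | h3
    · exact hg0 h3
    · have h4 : g = ((a + d : ℤ) : ℂ) := (sub_eq_zero.1 h3).symm
      have h5 := congrArg Complex.im h1
      rw [h4] at h5
      simp at h5
      have hb : b = 0 := by
        rcases h5 with h5 | h5
        · exact h5
        · exact absurd h5 hτ.ne'
      subst hb
      have h6 : g = (a : ℂ) := by rw [h1]; simp
      have h7 := congrArg Complex.im h2
      rw [h6] at h7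
      simp at h7
      have had : a = d := by
        rcases h7 with h7 | h7
        · exact h7
        · exact absurd h7 hτ.ne'
      subst had
      have h8 : a = 0 := by
        have : a * a = 0 := by linarith
        exact mul_self_eq_zero.1 this
      rw [h8] at h6
      exact hg0 (by rw [h6]; simp)
  refine ⟨(a * d - b * c).natAbs, Int.natAbs_pos.2 hD, fun z hz => ?_⟩
  have h4 : ((a * d - b * c : ℤ) : ℂ) * z ∈ Lam τ := by
    have h5 : ((a * d - b * c : ℤ) : ℂ) * z = ((a + d : ℤ) : ℂ) * (g * z) - g * (g * z) := by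
      rw [← h3]; ring
    rw [h5]
    exact Sum_sub (Sum_int _ hz) (Sum_mul hg hz)
  rcases Int.natAbs_eq (a * d - b * c) with h5 | h5
  · have h6 : ((a * d - b * c : ℤ) : ℂ) = ((((a * d - b * c).natAbs : ℕ) : ℤ) : ℂ) :=
      congrArg (Int.cast : ℤ → ℂ) h5
    rw [Int.cast_natCast] at h6
    rw [← h6]
    exact h4
  · have h6 : ((a * d - b * c : ℤ) : ℂ) = ((-(((a * d - b * c).natAbs : ℕ) : ℤ) : ℤ) : ℂ) :=
      congrArg (Int.cast : ℤ → ℂ) h5
    rw [Int.cast_neg, Int.cast_natCast] at h6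
    rw [h6, neg_mul] at h4
    exact neg_mem_Lam.1 h4

/-- the points of the division lattice in the fundamental domain -/
noncomputable def Sum_pt (τ : ℂ) (N : ℕ) (q : ℕ × ℕ) : ℂ := ((q.1 : ℂ) + q.2 * τ) / N

lemma Sum_small {N a b : ℕ} {m : ℤ} (ha : a < N) (hb : b < N) (h : (a : ℤ) - b = N * m) :
    a = b := by
  have h1 : (a : ℤ) - b = 0 := by
    apply Int.eq_zero_of_abs_lt_dvd (m := (N : ℤ)) ⟨m, h⟩
    rw [abs_lt]
    constructor <;> omega
  omega

lemma Sum_uniq {τ : ℂ} (hτ : 0 < τ.im) {N : ℕ} (hN : 0 < N) {p q : ℕ × ℕ} (hp1 : p.1 < N)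
    (hp2 : p.2 < N) (hq1 : q.1 < N) (hq2 : q.2 < N)
    (h : Sum_pt τ N p - Sum_pt τ N q ∈ Lam τ) : p = q := by
  obtain ⟨m, n, h⟩ := mem_Lam.1 h
  have hN0 : (N : ℂ) ≠ 0 := by exact_mod_cast hN.ne'
  have h1 : ((p.1 : ℂ) - q.1 - N * m) + ((p.2 : ℂ) - q.2 - N * n) * τ = 0 := by
    unfold Sum_pt at h
    field_simp at h
    linear_combination h
  have h2 := congrArg Complex.im h1
  simp at h2
  have h3 : (p.2 : ℤ) - q.2 = N * n := by
    rcases h2 with h2 | h2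
    · have : (p.2 : ℝ) - q.2 = N * n := by linarith
      exact_mod_cast this
    · exact absurd h2 hτ.ne'
  have h4 : ((p.2 : ℂ) - q.2 - N * n) = 0 := by
    have : ((p.2 : ℤ) : ℂ) - ((q.2 : ℤ) : ℂ) = (N : ℂ) * n := by exact_mod_cast h3
    push_cast at this
    linear_combination this
  rw [h4, zero_mul, add_zero] at h1
  have h5 : (p.1 : ℤ) - q.1 = N * m := by
    have : (p.1 : ℂ) - q.1 = N * m := by linear_combination h1
    exact_mod_cast this
  exact Prod.ext (Sum_small hp1 hq1 h5) (Sum_small hp2 hq2 h3)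

/-- the representatives -/
lemma Sum_rep {τ g : ℂ} (hτ : 0 < τ.im) (hg : IsInt τ g) (hg0 : g ≠ 0) :
    ∃ W : Finset ℂ, (∀ w ∈ W, g * w ∈ Lam τ ∧ ∃ N : ℕ, 0 < N ∧ (N : ℂ) * w ∈ Lam τ) ∧
      ∀ z : ℂ, g * z ∈ Lam τ → ∃ w ∈ W, z + w ∈ Lam τ ∧ ∀ w' ∈ W, z + w' ∈ Lam τ → w' = w := by
  classical
  obtain ⟨N, hN, hNz⟩ := Sum_norm hτ hg hg0
  have hN0 : (N : ℂ) ≠ 0 := by exact_mod_cast hN.ne'
  refine ⟨((Finset.range N ×ˢ Finset.range N).image (Sum_pt τ N)).filter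
    (fun w => g * w ∈ Lam τ), ?_, ?_⟩
  · intro w hw
    rw [Finset.mem_filter] at hw
    exact ⟨hw.2, N, hN, hNz w hw.2⟩
  · intro z hz
    obtain ⟨p, q, h1⟩ := mem_Lam.1 (hNz z hz)
    have hNZ : (N : ℤ) ≠ 0 := by exact_mod_cast hN.ne'
    have key : ∀ p : ℤ, ∃ i : ℕ, i < N ∧ ∃ m : ℤ, p + i = N * m := by
      intro p
      have h2 := Int.emod_nonneg (-p) hNZ
      have h3 := Int.emod_lt_of_pos (-p) (by exact_mod_cast hN : (0 : ℤ) < N)
      refine ⟨((-p) % N).toNat, by omega, -((-p) / N), ?_⟩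
      rw [Int.toNat_of_nonneg h2]
      have h4 := Int.mul_ediv_add_emod (-p) N
      linarith
    obtain ⟨i, hi, m, hm⟩ := key p
    obtain ⟨j, hj, n, hn⟩ := key q
    have hm' : (p : ℂ) + i = N * m := by exact_mod_cast hm
    have hn' : (q : ℂ) + j = N * n := by exact_mod_cast hn
    have h5 : z + Sum_pt τ N (i, j) = m + n * τ := by
      unfold Sum_pt
      field_simp
      linear_combination h1 + hm' + τ * hn'
    have h6 : z + Sum_pt τ N (i, j) ∈ Lam τ := mem_Lam.2 ⟨m, n, h5⟩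
    have h7 : g * Sum_pt τ N (i, j) ∈ Lam τ := by
      have h8 : g * Sum_pt τ N (i, j) = g * (z + Sum_pt τ N (i, j)) - g * z := by ring
      rw [h8]
      exact Sum_sub (Sum_mul hg h6) hz
    refine ⟨Sum_pt τ N (i, j), ?_, h6, ?_⟩
    · rw [Finset.mem_filter, Finset.mem_image]
      exact ⟨⟨(i, j), by simp [hi, hj], rfl⟩, h7⟩
    · intro w' hw' hw2
      rw [Finset.mem_filter, Finset.mem_image] at hw'
      obtain ⟨⟨⟨i', j'⟩, hij, rfl⟩, -⟩ := hw'
      rw [Finset.mem_product, Finset.mem_range, Finset.mem_range] at hij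
      have h9 : Sum_pt τ N (i', j') - Sum_pt τ N (i, j) ∈ Lam τ := by
        have h10 : Sum_pt τ N (i', j') - Sum_pt τ N (i, j) =
          (z + Sum_pt τ N (i', j')) - (z + Sum_pt τ N (i, j)) := by ring
        rw [h10]
        exact Sum_sub hw2 h6
      rw [Sum_uniq hτ hN hij.1 hij.2 hi hj h9]

/-! ### the function -/

lemma Sum_wpE {τ : ℂ} (hτ : 0 < τ.im) : DifferentiableAt ℂ (fun z => wpE {0} τ z) 0 := by
  have h := ((PP hτ).analyticAt_weierstrassPExcept 0).differentiableAt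
  refine h.congr_of_eventuallyEq (Eventually.of_forall fun z => ?_)
  exact wpE_PP hτ z

/-- differentiability at the zeros of the denominators -/
lemma Sum_diff {τ g : ℂ} (hτ : 0 < τ.im) (hg : IsInt τ g) (hg0 : g ≠ 0) (W : Finset ℂ)
    (hW : ∀ z : ℂ, g * z ∈ Lam τ →
      ∃ w ∈ W, z + w ∈ Lam τ ∧ ∀ w' ∈ W, z + w' ∈ Lam τ → w' = w)
    (hWg : ∀ w ∈ W, g * w ∈ Lam τ) (z₀ : ℂ) :
    DifferentiableAt ℂ (fun z => g ^ 2 * wp 1 τ (g * z) - ∑ w ∈ W, wp 1 τ (z + w)) z₀ := by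
  classical
  have hsh : ∀ w : ℂ, z₀ + w ∉ Lam τ → DifferentiableAt ℂ (fun z => wp 1 τ (z + w)) z₀ :=
    fun w hw => ((hasDerivAt_wp_z hτ hw).comp_add_const z₀ w).differentiableAt
  by_cases h0 : g * z₀ ∈ Lam τ
  · obtain ⟨w, hw, hzw, huniq⟩ := hW z₀ h0
    have e : (fun z => g ^ 2 * wp 1 τ (g * z) - ∑ w ∈ W, wp 1 τ (z + w)) =
        fun z => g ^ 2 * wpE {0} τ (g * (z - z₀)) - wpE {0} τ (z - z₀) -
          ∑ w' ∈ W.erase w, wp 1 τ (z + w') := by
      funext z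
      have h1 : wp 1 τ (g * z) = wp 1 τ (g * (z - z₀)) := by
        have h2 : g * z = g * (z - z₀) + g * z₀ := by ring
        rw [h2, Sum_wp hτ h0]
      have h3 : wp 1 τ (z + w) = wp 1 τ (z - z₀) := by
        have h4 : z + w = (z - z₀) + (z₀ + w) := by ring
        rw [h4, Sum_wp hτ hzw]
      rw [← Finset.add_sum_erase W _ hw, h1, h3, wp_eq_E hτ (g * (z - z₀)), wp_eq_E hτ (z - z₀)]
      have h5 : g ^ 2 * (1 / (g * (z - z₀)) ^ 2) = 1 / (z - z₀) ^ 2 := by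
        rw [mul_pow, one_div, one_div, mul_inv, ← mul_assoc,
          mul_inv_cancel₀ (pow_ne_zero 2 hg0), one_mul]
      linear_combination h5
    rw [e]
    have d1 : DifferentiableAt ℂ (fun z => wpE {0} τ (g * (z - z₀))) z₀ := by
      refine DifferentiableAt.comp (g := fun z => wpE {0} τ z) (f := fun z => g * (z - z₀)) z₀ ?_
        (by fun_prop)
      simp only [sub_self, mul_zero]
      exact Sum_wpE hτ
    have d2 : DifferentiableAt ℂ (fun z => wpE {0} τ (z - z₀)) z₀ := by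
      refine DifferentiableAt.comp (g := fun z => wpE {0} τ z) (f := fun z => z - z₀) z₀ ?_
        (by fun_prop)
      simp only [sub_self]
      exact Sum_wpE hτ
    have d3 : DifferentiableAt ℂ (fun z => ∑ w' ∈ W.erase w, wp 1 τ (z + w')) z₀ := by
      refine DifferentiableAt.fun_sum fun w' hw' => hsh w' fun h => ?_
      exact (Finset.ne_of_mem_erase hw') (huniq w' (Finset.mem_of_mem_erase hw') h)
    exact ((d1.const_mul (g ^ 2)).sub d2).sub d3
  · have d1 : DifferentiableAt ℂ (fun z => wp 1 τ (g * z)) z₀ :=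
      DifferentiableAt.comp (g := fun z => wp 1 τ z) (f := fun z => g * z) z₀
        (hasDerivAt_wp_z hτ h0).differentiableAt (by fun_prop)
    have d3 : DifferentiableAt ℂ (fun z => ∑ w' ∈ W, wp 1 τ (z + w')) z₀ := by
      refine DifferentiableAt.fun_sum fun w' hw' => hsh w' fun h => h0 ?_
      have h1 : g * z₀ = g * (z₀ + w') - g * w' := by ring
      rw [h1]
      exact Sum_sub (Sum_mul hg h) (hWg w' hw')
    exact (d1.const_mul (g ^ 2)).sub d3

theorem prf_Sum : StSum := by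
  intro τ hτ g hg hg0
  obtain ⟨W, hW1, hW2⟩ := Sum_rep hτ hg hg0
  have hWg : ∀ w ∈ W, g * w ∈ Lam τ := fun w hw => (hW1 w hw).1
  obtain ⟨f, hf⟩ : ∃ f : ℂ → ℂ, f = fun z => g ^ 2 * wp 1 τ (g * z) - ∑ w ∈ W, wp 1 τ (z + w) :=
    ⟨_, rfl⟩
  have hfd : Differentiable ℂ f := by
    rw [hf]
    exact fun z => Sum_diff hτ hg hg0 W hW2 hWg z
  have hfp : ∀ z l, l ∈ Lam τ → f (z + l) = f z := by
    intro z l hl
    rw [hf]
    show g ^ 2 * wp 1 τ (g * (z + l)) - ∑ w ∈ W, wp 1 τ (z + l + w) =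
      g ^ 2 * wp 1 τ (g * z) - ∑ w ∈ W, wp 1 τ (z + w)
    rw [mul_add, Sum_wp hτ (Sum_mul hg hl)]
    congr 1
    refine Finset.sum_congr rfl fun w _ => ?_
    rw [show z + l + w = z + w + l by ring, Sum_wp hτ hl]
  have h1L : (1 : ℂ) ∈ Lam τ := mem_Lam.2 ⟨1, 0, by simp⟩
  have hτL : τ ∈ Lam τ := mem_Lam.2 ⟨0, 1, by simp⟩
  have hz : ∀ z, z ∉ Lam τ → f z - f 0 = 0 := by
    refine elliptic_zero hτ (D := fun z => f z - f 0) ?_ ?_ ?_ ?_
    · intro z _
      show f (z + 1) - f 0 = f z - f 0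
      rw [hfp z 1 h1L]
    · intro z _
      show f (z + τ) - f 0 = f z - f 0
      rw [hfp z τ hτL]
    · intro z _
      exact (hfd z).sub_const _
    · have h1 : Tendsto (fun z => f z - f 0) (𝓝 0) (𝓝 (f 0 - f 0)) :=
        ((hfd 0).continuousAt.tendsto).sub_const _
      rw [sub_self] at h1
      exact h1.mono_left nhdsWithin_le_nhds
  have hU : ∀ z, g * z ∉ Lam τ → z ∉ Lam τ := fun z hz h => hz (Sum_mul hg h)
  have hwp : ∀ z, g * z ∉ Lam τ → g ^ 2 * wp 1 τ (g * z) = ∑ w ∈ W, wp 1 τ (z + w) + f 0 := by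
    intro z hgz
    have h1 := hz z (hU z hgz)
    have h2 : f z = g ^ 2 * wp 1 τ (g * z) - ∑ w ∈ W, wp 1 τ (z + w) := by rw [hf]
    rw [h2] at h1
    linear_combination h1
  -- the zeta functions
  obtain ⟨F, hF⟩ : ∃ F : ℂ → ℂ, F = fun z => g * zt 1 τ (g * z) - ∑ w ∈ W, zt 1 τ (z + w) +
      f 0 * z := ⟨_, rfl⟩
  have hFd : ∀ z, g * z ∉ Lam τ → HasDerivAt F 0 z := by
    intro z hgz
    have d1 : HasDerivAt (fun z => zt 1 τ (g * z)) (-wp 1 τ (g * z) * g) z := by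
      have h1 : HasDerivAt (fun z : ℂ => g * z) g z := by
        simpa using (hasDerivAt_id z).const_mul g
      exact HasDerivAt.comp (h₂ := fun z => zt 1 τ z) z (hasDerivAt_zt_z hτ hgz) h1
    have d2 : HasDerivAt (fun z => ∑ w ∈ W, zt 1 τ (z + w)) (∑ w ∈ W, -wp 1 τ (z + w)) z := by
      refine HasDerivAt.fun_sum fun w hw => ?_
      refine (hasDerivAt_zt_z hτ fun h => hgz ?_).comp_add_const z w
      have h1 : g * z = g * (z + w) - g * w := by ring
      rw [h1]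
      exact Sum_sub (Sum_mul hg h) (hWg w hw)
    have d3 : HasDerivAt (fun z : ℂ => f 0 * z) (f 0) z := by
      simpa using (hasDerivAt_id z).const_mul (f 0)
    have d4 := ((d1.const_mul g).sub d2).add d3
    have e : g * (-wp 1 τ (g * z) * g) - ∑ w ∈ W, -wp 1 τ (z + w) + f 0 = 0 := by
      rw [Finset.sum_neg_distrib]
      linear_combination -(hwp z hgz)
    rw [e] at d4
    rw [hF]
    exact d4
  have hopen : IsOpen {z : ℂ | g * z ∉ Lam τ} :=
    (Lam_compl_open hτ).preimage (continuous_const.mul continuous_id)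
  have hconn : IsConnected {z : ℂ | g * z ∉ Lam τ} := by
    have h1 : ((fun z : ℂ => g * z) ⁻¹' (Lam τ)).Countable :=
      (Lam_countable τ).preimage (mul_right_injective₀ hg0)
    exact Set.Countable.isConnected_compl_of_one_lt_rank (by simp) h1
  obtain ⟨z₁, hz₁⟩ := hconn.nonempty
  refine ⟨W, f 0, -(f 0), F z₁, hW1, fun z hgz => ⟨hwp z hgz, ?_⟩⟩
  have h1 : F z = F z₁ := hopen.is_const_of_deriv_eq_zero hconn.isPreconnected
    (fun w hw => (hFd w hw).differentiableAt.differentiableWithinAt)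
    (fun w hw => (hFd w hw).deriv) hgz hz₁
  have h2 : F z = g * zt 1 τ (g * z) - ∑ w ∈ W, zt 1 τ (z + w) + f 0 * z := by rw [hF]
  linear_combination h1 - h2

end Pool.Agent.Work.MP_8da9ea_nt.CD
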