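import Pool.Agent.Work.MP_8da9ea_nt.CD.Defs

/-!
# Closure dimension: item Tor (torsion points)
-/

set_option autoImplicit false

namespace Pool.Agent.Work.MP_8da9ea_nt.CD

open Complex Filter Topology

/-- a root of a quadratic polynomial with algebraic coefficients, not all zero, is algebraic -/
lemma Tor_quad {F : Type} [Field F] [Algebra F ℂ] {A B C W : ℂ} (hA : IsAlgebraic F A)
    (hB : IsAlgebraic F B) (hC : IsAlgebraic F C) (hne : A ≠ 0 ∨ B ≠ 0 ∨ C ≠ 0)
    (h : A * W ^ 2 + B * W + C = 0) : IsAlgebraic F W := by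
  have hA' : A ∈ algebraicClosure F ℂ := mem_algebraicClosure_iff.2 hA
  have hB' : B ∈ algebraicClosure F ℂ := mem_algebraicClosure_iff.2 hB
  have hC' : C ∈ algebraicClosure F ℂ := mem_algebraicClosure_iff.2 hC
  have h1 : IsAlgebraic (algebraicClosure F ℂ) W := by
    refine ⟨Polynomial.C (⟨A, hA'⟩ : algebraicClosure F ℂ) * Polynomial.X ^ 2 +
      Polynomial.C (⟨B, hB'⟩ : algebraicClosure F ℂ) * Polynomial.X +
      Polynomial.C (⟨C, hC'⟩ : algebraicClosure F ℂ), ?_, ?_⟩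
    · intro h0
      have e2 := congrArg (fun p => p.coeff 2) h0
      have e1 := congrArg (fun p => p.coeff 1) h0
      have e0 := congrArg (fun p => p.coeff 0) h0
      simp [Polynomial.coeff_X, Polynomial.coeff_C, Polynomial.coeff_X_pow] at e2 e1 e0
      rcases hne with h | h | h
      · exact h (congrArg Subtype.val e2)
      · exact h (congrArg Subtype.val e1)
      · exact h (congrArg Subtype.val e0)
    · simp only [map_add, map_mul, map_pow, Polynomial.aeval_C, Polynomial.aeval_X]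
      exact h
  exact h1.restrictScalars F

/-- the addition theorem for the Weierstrass function alone -/
lemma Tor_wpadd {F : Type} [Field F] [Algebra F ℂ] {τ a b : ℂ} (hτ : 0 < τ.im)
    (ha : a ∉ Lam τ) (hb : b ∉ Lam τ) (hab : a + b ∉ Lam τ)
    (h2 : IsAlgebraic F (gg2 τ)) (h3 : IsAlgebraic F (gg3 τ))
    (hwa : IsAlgebraic F (wp 1 τ a)) (hwb : IsAlgebraic F (wp 1 τ b)) :
    IsAlgebraic F (wp 1 τ (a + b)) := by
  have hrel := Fx.wp_add_rel hτ ha hb hab
  set x := wp 1 τ a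
  set y := wp 1 τ b
  set W := wp 1 τ (a + b)
  set g := gg2 τ with hg
  set k := gg3 τ with hk
  have q4 : IsAlgebraic F (4 : ℂ) := by
    have := isAlgebraic_algebraMap (R := F) (A := ℂ) (4 : F)
    rwa [map_ofNat] at this
  have hg4 : IsAlgebraic F (g / 4) := by
    rw [div_eq_mul_inv]; exact h2.mul q4.inv
  have q2 : IsAlgebraic F (2 : ℂ) := by
    have := isAlgebraic_algebraMap (R := F) (A := ℂ) (2 : F)
    rwa [map_ofNat] at this
  refine Tor_quad (F := F) (A := 4 * x * y - (x + y) ^ 2)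
    (B := 4 * x * y * (x + y) - k - 2 * (x + y) * (x * y + g / 4))
    (C := -(x + y) * k - (x * y + g / 4) ^ 2) ?_ ?_ ?_ ?_ ?_
  · exact ((q4.mul hwa).mul hwb).sub ((hwa.add hwb).pow 2)
  · exact ((((q4.mul hwa).mul hwb).mul (hwa.add hwb)).sub h3).sub
      ((q2.mul (hwa.add hwb)).mul ((hwa.mul hwb).add hg4))
  · exact ((hwa.add hwb).neg.mul h3).sub (((hwa.mul hwb).add hg4).pow 2)
  · by_contra hcon
    push Not at hcon
    obtain ⟨e2, e1, e0⟩ := hcon
    have exy : x = y := by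
      have : (x - y) ^ 2 = 0 := by linear_combination -e2
      exact sub_eq_zero.1 (pow_eq_zero_iff (two_ne_zero) |>.1 this)
    rw [← exy] at e1 e0
    apply Fx.disc_ne hτ
    rw [← hg, ← hk]
    have e1' : k = 4 * x ^ 3 - g * x := by linear_combination -e1
    have e0' : 2 * x * k + (x ^ 2 + g / 4) ^ 2 = 0 := by linear_combination -e0
    rw [e1'] at e0'
    have hq : (12 * x ^ 2 - g) ^ 2 = 0 := by linear_combination 16 * e0'
    have hq2 : g = 12 * x ^ 2 := by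
      have := (pow_eq_zero_iff (two_ne_zero)).1 hq
      linear_combination -this
    rw [e1', hq2]
    ring
  · linear_combination hrel

/-- multiples, for a general point -/
lemma Tor_multiple {F : Type} [Field F] [Algebra F ℂ] {τ z : ℂ} (hτ : 0 < τ.im)
    (h2 : IsAlgebraic F (gg2 τ)) (h3 : IsAlgebraic F (gg3 τ)) (hz : IsAlgebraic F (wp 1 τ z))
    (k : ℕ) (hk : ∀ j : ℕ, 0 < j → j ≤ k + 1 → (j : ℂ) * z ∉ Lam τ) :
    IsAlgebraic F (wp 1 τ (((k + 1 : ℕ) : ℂ) * z)) := by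
  induction k with
  | zero => simpa using hz
  | succ k ih =>
    have h1 := ih (fun j hj hj' => hk j hj (by omega))
    have e : (((k + 1 + 1 : ℕ) : ℂ)) * z = ((k + 1 : ℕ) : ℂ) * z + z := by push_cast; ring
    have hz1 : z ∉ Lam τ := by
      have := hk 1 one_pos (by omega)
      simpa using this
    have hz2 : ((k + 1 : ℕ) : ℂ) * z ∉ Lam τ := hk (k + 1) (by omega) (by omega)
    have hz3 : ((k + 1 : ℕ) : ℂ) * z + z ∉ Lam τ := by
      rw [← e]; exact hk (k + 1 + 1) (by omega) le_rfl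
    rw [e]
    exact Tor_wpadd hτ hz2 hz1 hz3 h2 h3 h1 hz

open scoped IntermediateField.algebraAdjoinAdjoin in
/-- the algebraic relation for a general point -/
lemma Tor_rel (K : IntermediateField ℚ ℂ) {τ z : ℂ} (hτ : 0 < τ.im)
    (h2 : gg2 τ ∈ K) (h3 : gg3 τ ∈ K)
    (k : ℕ) (hk : ∀ j : ℕ, 0 < j → j ≤ k + 1 → (j : ℂ) * z ∉ Lam τ) :
    ∃ P : MvPolynomial (Fin 2) K, P ≠ 0 ∧
      MvPolynomial.aeval ![wp 1 τ (((k + 1 : ℕ) : ℂ) * z), wp 1 τ z] P = 0 := by
  by_contra hcon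
  push Not at hcon
  have hind : AlgebraicIndependent K ![wp 1 τ (((k + 1 : ℕ) : ℂ) * z), wp 1 τ z] := by
    rw [algebraicIndependent_iff]
    intro p hp
    by_contra hp0
    exact hcon p hp0 hp
  have htr := hind.transcendental_adjoin (s := {1}) (i := 0) (by simp)
  have himg : (![wp 1 τ (((k + 1 : ℕ) : ℂ) * z), wp 1 τ z] '' {1}) = {wp 1 τ z} := by simp
  rw [himg] at htr
  apply htr
  simp only [Matrix.cons_val_zero]
  have halg : IsAlgebraic (IntermediateField.adjoin K {wp 1 τ z})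
      (wp 1 τ (((k + 1 : ℕ) : ℂ) * z)) := by
    apply Tor_multiple hτ _ _ _ k hk
    · exact isAlgebraic_algebraMap (R := IntermediateField.adjoin K {wp 1 τ z})
        (⟨gg2 τ, (IntermediateField.adjoin K {wp 1 τ z}).algebraMap_mem ⟨gg2 τ, h2⟩⟩)
    · exact isAlgebraic_algebraMap (R := IntermediateField.adjoin K {wp 1 τ z})
        (⟨gg3 τ, (IntermediateField.adjoin K {wp 1 τ z}).algebraMap_mem ⟨gg3 τ, h3⟩⟩)
    · exact isAlgebraic_algebraMap (R := IntermediateField.adjoin K {wp 1 τ z})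
        (⟨wp 1 τ z, IntermediateField.mem_adjoin_simple_self K _⟩)
  exact (IsFractionRing.isAlgebraic_iff (Algebra.adjoin K {wp 1 τ z})
    (IntermediateField.adjoin K {wp 1 τ z}) ℂ).2 halg

lemma Tor_countable_mul {S : Set ℂ} (hS : S.Countable) {N : ℂ} (hN : N ≠ 0) :
    {z : ℂ | N * z ∈ S}.Countable := by
  have : {z : ℂ | N * z ∈ S} = (fun z => N * z) ⁻¹' S := rfl
  rw [this]
  exact hS.preimage_of_injOn (fun a _ b _ h => mul_left_cancel₀ hN h)

lemma Tor_analytic {τ : ℂ} (hτ : 0 < τ.im) : AnalyticOnNhd ℂ (wp 1 τ) (Lam τ)ᶜ := by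
  apply DifferentiableOn.analyticOnNhd _ (Lam_compl_open hτ)
  intro z hz
  exact (hasDerivAt_wp_z hτ hz).differentiableAt.differentiableWithinAt

lemma Tor_nz {τ : ℂ} (N : ℕ) {z : ℂ} (h : (N : ℂ) * z ∉ Lam τ) : z ∉ Lam τ := by
  intro hz
  apply h
  obtain ⟨m, n, rfl⟩ := mem_Lam.1 hz
  rw [mem_Lam]
  exact ⟨N * m, N * n, by push_cast; ring⟩

/-- one relation for all points -/
lemma Tor_one_rel (K : IntermediateField ℚ ℂ) [Countable K] {τ : ℂ} (hτ : 0 < τ.im)
    (h2 : gg2 τ ∈ K) (h3 : gg3 τ ∈ K) (N : ℕ) (hN : 0 < N) :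
    ∃ P : MvPolynomial (Fin 2) K, P ≠ 0 ∧ ∀ z : ℂ, (N : ℂ) * z ∉ Lam τ →
      MvPolynomial.aeval ![wp 1 τ ((N : ℂ) * z), wp 1 τ z] P = 0 := by
  obtain ⟨k, rfl⟩ : ∃ k, N = k + 1 := ⟨N - 1, by omega⟩
  by_contra hcon
  push Not at hcon
  set U : Set ℂ := {z | ((k + 1 : ℕ) : ℂ) * z ∈ Lam τ}ᶜ with hU
  have hk0 : ((k + 1 : ℕ) : ℂ) ≠ 0 := by exact_mod_cast (by omega : k + 1 ≠ 0)
  have hUc : {z : ℂ | ((k + 1 : ℕ) : ℂ) * z ∈ Lam τ}.Countable :=
    Tor_countable_mul (Lam_countable τ) hk0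
  have hUp : IsPreconnected U := (Set.Countable.isConnected_compl_of_one_lt_rank (by simp) hUc).2
  -- the zero sets are countable
  have hz : ∀ P : MvPolynomial (Fin 2) K, P ≠ 0 → {z : ℂ | z ∈ U ∧
      MvPolynomial.aeval ![wp 1 τ (((k + 1 : ℕ) : ℂ) * z), wp 1 τ z] P = 0}.Countable := by
    intro P hP
    obtain ⟨z0, hz0, hz1⟩ := hcon P hP
    refine zeros_countable hUp (f := fun z =>
      MvPolynomial.aeval ![wp 1 τ (((k + 1 : ℕ) : ℂ) * z), wp 1 τ z] P) ?_ ⟨z0, hz0, hz1⟩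
    intro z hz
    have hz' : ((k + 1 : ℕ) : ℂ) * z ∉ Lam τ := hz
    have a1 : AnalyticAt ℂ (fun z => wp 1 τ (((k + 1 : ℕ) : ℂ) * z)) z :=
      (Tor_analytic hτ _ hz').comp_of_eq (analyticAt_const.mul analyticAt_id) rfl
    have a2 : AnalyticAt ℂ (fun z => wp 1 τ z) z := Tor_analytic hτ _ (Tor_nz _ hz')
    exact AnalyticAt.aeval_mvPolynomial (f := fun z => ![wp 1 τ (((k + 1 : ℕ) : ℂ) * z), wp 1 τ z])
      (by intro i; fin_cases i; exacts [a1, a2]) P
  -- all points are covered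
  have hcov : (Set.univ : Set ℂ) ⊆ (⋃ j : Fin (k + 1), {z : ℂ | ((j.1 + 1 : ℕ) : ℂ) * z ∈ Lam τ}) ∪
      ⋃ P : {P : MvPolynomial (Fin 2) K // P ≠ 0}, {z : ℂ | z ∈ U ∧
        MvPolynomial.aeval ![wp 1 τ (((k + 1 : ℕ) : ℂ) * z), wp 1 τ z] P.1 = 0} := by
    intro z _
    by_cases hzz : ∃ j : Fin (k + 1), ((j.1 + 1 : ℕ) : ℂ) * z ∈ Lam τ
    · obtain ⟨j, hj⟩ := hzz
      exact Or.inl (Set.mem_iUnion.2 ⟨j, hj⟩)
    · push Not at hzz
      right
      obtain ⟨P, hP, hP0⟩ := Tor_rel K hτ h2 h3 k (z := z) (fun j hj hj' => by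
        have := hzz ⟨j - 1, by omega⟩
        simp only at this
        rwa [show j - 1 + 1 = j by omega] at this)
      exact Set.mem_iUnion.2 ⟨⟨P, hP⟩, hzz ⟨k, by omega⟩, hP0⟩
  have hcountable : (Set.univ : Set ℂ).Countable := by
    refine Set.Countable.mono hcov (Set.Countable.union ?_ ?_)
    · refine Set.countable_iUnion fun j => Tor_countable_mul (Lam_countable τ) ?_
      exact_mod_cast (by omega : j.1 + 1 ≠ 0)
    · have : Countable (MvPolynomial (Fin 2) K) := by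
        rw [← Cardinal.mk_le_aleph0_iff]
        refine (MvPolynomial.cardinalMk_le_max_lift (σ := Fin 2) (R := K)).trans ?_
        simp only [max_le_iff, Cardinal.lift_le_aleph0, Cardinal.mk_le_aleph0_iff, le_refl]
        exact ⟨⟨inferInstance, inferInstance⟩, trivial⟩
      exact Set.countable_iUnion fun P => hz P.1 P.2
  exact not_countable_complex hcountable

lemma Tor_expand {K : IntermediateField ℚ ℂ} (x y : ℂ) (P : MvPolynomial (Fin 2) K) :
    MvPolynomial.aeval ![x, y] P =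
      Polynomial.eval₂ ((MvPolynomial.aeval ![y] : MvPolynomial (Fin 1) K →ₐ[K] ℂ) :
        MvPolynomial (Fin 1) K →+* ℂ) x (MvPolynomial.finSuccEquiv K 1 P) := by
  induction P using MvPolynomial.induction_on with
  | C c => simp [MvPolynomial.finSuccEquiv_apply]
  | add p q hp hq => rw [map_add, map_add, Polynomial.eval₂_add, hp, hq]
  | mul_X p i hp =>
    rw [map_mul, map_mul, Polynomial.eval₂_mul, hp]
    congr 1
    fin_cases i
    · simp [MvPolynomial.finSuccEquiv_X_zero]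
    · have h1 : (MvPolynomial.X ((fun i => i) ⟨1, by norm_num⟩) : MvPolynomial (Fin 2) K) =
          MvPolynomial.X (Fin.succ (0 : Fin 1)) := rfl
      rw [h1, MvPolynomial.finSuccEquiv_X_succ]
      simp

/-- the value at a torsion point is algebraic -/
lemma Tor_alg (K : IntermediateField ℚ ℂ) [Countable K] {τ : ℂ} (hτ : 0 < τ.im)
    (h2 : gg2 τ ∈ K) (h3 : gg3 τ ∈ K) (N : ℕ) (hN : 0 < N) (w : ℂ) (hw : w ∉ Lam τ)
    (hNw : (N : ℂ) * w ∈ Lam τ) : IsAlgebraic K (wp 1 τ w) := by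
  obtain ⟨P, hP, hP0⟩ := Tor_one_rel K hτ h2 h3 N hN
  have hN0 : (N : ℂ) ≠ 0 := by exact_mod_cast hN.ne'
  set Q := MvPolynomial.finSuccEquiv K 1 P with hQ
  have hQ0 : Q ≠ 0 := by
    rw [hQ]
    exact (map_ne_zero_iff _ (MvPolynomial.finSuccEquiv K 1).injective).2 hP
  set d := Q.natDegree with hd
  set c : ℕ → ℂ → ℂ := fun i z => MvPolynomial.aeval ![wp 1 τ z] (Q.coeff i) with hc
  -- the relation, expanded
  have hrel : ∀ z : ℂ, (N : ℂ) * z ∉ Lam τ →
      ∑ i ∈ Finset.range (d + 1), c i z * wp 1 τ ((N : ℂ) * z) ^ i = 0 := by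
    intro z hz
    have h := hP0 z hz
    rw [Tor_expand, Polynomial.eval₂_eq_sum_range] at h
    exact h
  -- the coefficients are continuous at w
  have hcc : ∀ i, Tendsto (c i) (𝓝[≠] w) (𝓝 (c i w)) := by
    intro i
    have a2 : AnalyticAt ℂ (fun z => wp 1 τ z) w := Tor_analytic hτ _ hw
    have a3 : AnalyticAt ℂ (c i) w :=
      AnalyticAt.aeval_mvPolynomial (f := fun z => ![wp 1 τ z])
        (by intro i; fin_cases i; exact a2) (Q.coeff i)
    exact a3.continuousAt.tendsto.mono_left nhdsWithin_le_nhds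
  -- near w the multiple tends to a lattice point
  have hlin : Tendsto (fun z : ℂ => (N : ℂ) * (z - w)) (𝓝[≠] w) (𝓝[≠] 0) := by
    rw [tendsto_nhdsWithin_iff]
    constructor
    · have : Tendsto (fun z : ℂ => (N : ℂ) * (z - w)) (𝓝 w) (𝓝 ((N : ℂ) * (w - w))) := by
        apply Continuous.tendsto; fun_prop
      rw [sub_self, mul_zero] at this
      exact this.mono_left nhdsWithin_le_nhds
    · filter_upwards [self_mem_nhdsWithin] with z hz
      have hz' : z ≠ w := hz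
      exact mul_ne_zero hN0 (sub_ne_zero.2 hz')
  obtain ⟨m, n, hmn⟩ := mem_Lam.1 hNw
  have hNz : ∀ z : ℂ, (N : ℂ) * z = (N : ℂ) * (z - w) + (m + n * τ) := by
    intro z; linear_combination hmn
  have hwpN : ∀ z : ℂ, wp 1 τ ((N : ℂ) * z) = wp 1 τ ((N : ℂ) * (z - w)) := by
    intro z
    rw [hNz z, wp_add_lp hτ]
  have hnot : ∀ᶠ z : ℂ in 𝓝[≠] w, (N : ℂ) * z ∉ Lam τ := by
    filter_upwards [hlin.eventually (eventually_notMem hτ)] with z hz
    rw [hNz z, add_mem_Lam_iff]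
    exact hz
  have hlim1 : Tendsto (fun z : ℂ => ((N : ℂ) * (z - w)) ^ 2 * wp 1 τ ((N : ℂ) * z)) (𝓝[≠] w)
      (𝓝 1) := by
    have h := (lim_sq_wp hτ).comp hlin
    refine h.congr fun z => ?_
    simp only [Function.comp]
    rw [hwpN z]
  have hh2 : Tendsto (fun z : ℂ => ((N : ℂ) * (z - w)) ^ 2) (𝓝[≠] w) (𝓝 0) := by
    have : Tendsto (fun z : ℂ => ((N : ℂ) * (z - w)) ^ 2) (𝓝 w) (𝓝 (((N : ℂ) * (w - w)) ^ 2)) := by
      apply Continuous.tendsto; fun_prop
    rw [sub_self, mul_zero, zero_pow (two_ne_zero)] at this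
    exact this.mono_left nhdsWithin_le_nhds
  -- multiply by h ^ (2 d)
  have hG : Tendsto (fun z : ℂ => ∑ i ∈ Finset.range (d + 1), c i z *
      (((N : ℂ) * (z - w)) ^ 2 * wp 1 τ ((N : ℂ) * z)) ^ i * (((N : ℂ) * (z - w)) ^ 2) ^ (d - i))
      (𝓝[≠] w) (𝓝 (∑ i ∈ Finset.range (d + 1), c i w * 1 ^ i * (0 : ℂ) ^ (d - i))) := by
    apply tendsto_finsetSum
    intro i _
    exact ((hcc i).mul (hlim1.pow i)).mul (hh2.pow (d - i))
  have hG0 : Tendsto (fun z : ℂ => ∑ i ∈ Finset.range (d + 1), c i z *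
      (((N : ℂ) * (z - w)) ^ 2 * wp 1 τ ((N : ℂ) * z)) ^ i * (((N : ℂ) * (z - w)) ^ 2) ^ (d - i))
      (𝓝[≠] w) (𝓝 0) := by
    refine tendsto_const_nhds.congr' ?_
    filter_upwards [hnot] with z hz
    have h := hrel z hz
    have e : ∑ i ∈ Finset.range (d + 1), c i z *
      (((N : ℂ) * (z - w)) ^ 2 * wp 1 τ ((N : ℂ) * z)) ^ i * (((N : ℂ) * (z - w)) ^ 2) ^ (d - i) =
      (((N : ℂ) * (z - w)) ^ 2) ^ d *
        ∑ i ∈ Finset.range (d + 1), c i z * wp 1 τ ((N : ℂ) * z) ^ i := by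
      rw [Finset.mul_sum]
      refine Finset.sum_congr rfl fun i hi => ?_
      have hi' : i ≤ d := by
        have := Finset.mem_range.1 hi
        omega
      have e1 : (((N : ℂ) * (z - w)) ^ 2) ^ d =
          (((N : ℂ) * (z - w)) ^ 2) ^ i * (((N : ℂ) * (z - w)) ^ 2) ^ (d - i) := by
        rw [← pow_add]
        congr 1
        omega
      rw [e1, mul_pow]
      ring
    rw [e, h, mul_zero]
  have hval := tendsto_nhds_unique hG0 hG
  have hval2 : c d w = 0 := by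
    rw [Finset.sum_eq_single d] at hval
    · simpa using hval.symm
    · intro i hi hid
      have := Finset.mem_range.1 hi
      rw [zero_pow (by omega), mul_zero]
    · intro h
      exact absurd (Finset.mem_range.2 (Nat.lt_succ_self d)) h
  -- conclusion
  by_contra htr
  have hind : AlgebraicIndependent K ![wp 1 τ w] := by
    rw [algebraicIndependent_unique_type_iff]
    exact htr
  have h0 : Q.coeff d = 0 := by
    rw [algebraicIndependent_iff] at hind
    exact hind _ hval2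
  exact hQ0 (Polynomial.leadingCoeff_eq_zero.1 h0)

/-- the first step: values at torsion points lie in the field -/
lemma Tor_wp {τ : ℂ} (hτ : 0 < τ.im) (L : IntermediateField ℚ ℂ) (hL : Base τ L) (N : ℕ)
    (hN : 0 < N) (w : ℂ) (hw : w ∉ Lam τ) (hNw : (N : ℂ) * w ∈ Lam τ) : wp 1 τ w ∈ L := by
  have hsub : ({gg2 τ, gg3 τ} : Set ℂ) ⊆ (L : Set ℂ) := by
    rintro x (rfl | rfl)
    exacts [hL.g2, hL.g3]
  have hKL : IntermediateField.adjoin ℚ ({gg2 τ, gg3 τ} : Set ℂ) ≤ L :=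
    IntermediateField.adjoin_le_iff.2 hsub
  have : Countable (IntermediateField.adjoin ℚ ({gg2 τ, gg3 τ} : Set ℂ)) :=
    countable_adjoin _ (by simp)
  have h1 := Tor_alg (IntermediateField.adjoin ℚ ({gg2 τ, gg3 τ} : Set ℂ)) hτ
    (IntermediateField.subset_adjoin _ _ (Or.inl rfl))
    (IntermediateField.subset_adjoin _ _ (Or.inr rfl)) N hN w hw hNw
  apply hL.ac
  let _ : Algebra (IntermediateField.adjoin ℚ ({gg2 τ, gg3 τ} : Set ℂ)) L :=
    (IntermediateField.inclusion hKL).toAlgebra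
  have : IsScalarTower (IntermediateField.adjoin ℚ ({gg2 τ, gg3 τ} : Set ℂ)) L ℂ :=
    IsScalarTower.of_algebraMap_eq (fun x => rfl)
  exact h1.tower_top L

/-- item Tor -/
theorem prf_Tor (hAdd : StAdd) : StTor := by
  clear hAdd
  intro τ hτ L hL N₀ w hN₀ hN₀w
  by_cases hw : w ∈ Lam τ
  · exact Or.inl hw
  right
  have hex : ∃ N : ℕ, 0 < N ∧ (N : ℂ) * w ∈ Lam τ := ⟨N₀, hN₀, hN₀w⟩
  classical
  obtain ⟨N, ⟨hN, hNw⟩, hmin⟩ : ∃ N : ℕ, (0 < N ∧ (N : ℂ) * w ∈ Lam τ) ∧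
      ∀ k : ℕ, k < N → ¬ (0 < k ∧ (k : ℂ) * w ∈ Lam τ) :=
    ⟨Nat.find hex, Nat.find_spec hex, fun k hk => Nat.find_min hex hk⟩
  have hk0 : ∀ k : ℕ, 0 < k → k < N → (k : ℂ) * w ∉ Lam τ := fun k h1 h2 h3 =>
    hmin k h2 ⟨h1, h3⟩
  have hkp : ∀ k : ℕ, 0 < k → k < N → wp 1 τ ((k : ℂ) * w) ∈ L := by
    intro k h1 h2
    refine Tor_wp hτ L hL N hN _ (hk0 k h1 h2) ?_
    obtain ⟨m, n, hmn⟩ := mem_Lam.1 hNw
    rw [mem_Lam]
    exact ⟨k * m, k * n, by push_cast; linear_combination (k : ℂ) * hmn⟩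
  have hN2 : 2 ≤ N := by
    rcases Nat.lt_or_ge N 2 with h | h
    · exfalso
      have : N = 1 := by omega
      rw [this] at hNw
      exact hw (by simpa using hNw)
    · exact h
  refine ⟨by simpa using hkp 1 one_pos (by omega), ?_⟩
  -- the sums
  have hsum : ∀ k : ℕ, k + 1 < N →
      zt 1 τ (((k + 1 : ℕ) : ℂ) * w) - ((k + 1 : ℕ) : ℂ) * zt 1 τ w ∈ L := by
    intro k
    induction k with
    | zero =>
      intro _
      have : zt 1 τ (((0 + 1 : ℕ) : ℂ) * w) - ((0 + 1 : ℕ) : ℂ) * zt 1 τ w = 0 := by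
        simp
      rw [this]
      exact L.zero_mem
    | succ k ih =>
      intro hk
      have h1 := ih (by omega)
      have e : ((k + 1 + 1 : ℕ) : ℂ) * w = ((k + 1 : ℕ) : ℂ) * w + w := by push_cast; ring
      have a1 := hk0 (k + 1) (by omega) (by omega)
      have a2 := hk0 (k + 1 + 1) (by omega) hk
      have p1 := hkp (k + 1) (by omega) (by omega)
      have p2 := hkp (k + 1 + 1) (by omega) hk
      have p0 : wp 1 τ w ∈ L := by simpa using hkp 1 one_pos (by omega)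
      rw [e] at a2 p2
      have hsq := Fx.zt_add_sq hτ a1 hw a2
      have hs : zt 1 τ (((k + 1 : ℕ) : ℂ) * w + w) - zt 1 τ (((k + 1 : ℕ) : ℂ) * w) -
          zt 1 τ w ∈ L := by
        apply hL.ac
        apply IsAlgebraic.of_pow (n := 2) two_pos
        rw [hsq]
        exact isAlgebraic_algebraMap (R := L)
          (⟨_, L.add_mem (L.add_mem p1 p0) p2⟩ : L)
      rw [e]
      have := L.add_mem hs h1
      convert this using 1
      push_cast
      ring
  obtain ⟨k, rfl⟩ : ∃ k, N = k + 1 + 1 := ⟨N - 2, by omega⟩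
  have hlast := hsum k (by omega)
  obtain ⟨m, n, hmn⟩ := mem_Lam.1 hNw
  have e : ((k + 1 : ℕ) : ℂ) * w = -w + (m + n * τ) := by
    push_cast at hmn ⊢
    linear_combination hmn
  rw [e, zt_add_lp hτ, zt_neg] at hlast
  have hkap : (2 * Real.pi * I : ℂ) ∈ L := hL.kap
  have hmL : (m : ℂ) ∈ L := by
    have := L.algebraMap_mem (m : ℚ)
    simpa using this
  have hnL : (n : ℂ) ∈ L := by
    have := L.algebraMap_mem (n : ℚ)
    simpa using this
  have hNL : ((k + 1 + 1 : ℕ) : ℂ) ∈ L := by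
    have := L.algebraMap_mem ((k + 1 + 1 : ℕ) : ℚ)
    simpa using this
  have hA : et τ * (m + n * τ) - 2 * Real.pi * I * n ∈ L :=
    L.sub_mem (L.mul_mem hL.et (L.add_mem hmL (L.mul_mem hnL hL.tau))) (L.mul_mem hkap hnL)
  have hB := L.sub_mem hA hlast
  have hC : ((k + 1 + 1 : ℕ) : ℂ) * zt 1 τ w ∈ L := by
    convert hB using 1
    push_cast
    ring
  have hne : ((k + 1 + 1 : ℕ) : ℂ) ≠ 0 := by exact_mod_cast (by omega : k + 1 + 1 ≠ 0)
  have hD := L.mul_mem (L.inv_mem hNL) hC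
  rwa [← mul_assoc, inv_mul_cancel₀ hne, one_mul] at hD

end Pool.Agent.Work.MP_8da9ea_nt.CD
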