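import Pool.Agent.Work.MP_8da9ea_nt.CD.Fin
import Pool.Agent.Work.MP_8da9ea_nt.CD.Add
import Pool.Agent.Work.MP_8da9ea_nt.CD.Tor
import Pool.Agent.Work.MP_8da9ea_nt.CD.Sum
import Pool.Agent.Work.MP_8da9ea_nt.CD.Mul
import Pool.Agent.Work.MP_8da9ea_nt.CD.Lin
import Pool.Agent.Work.MP_8da9ea_nt.CD.Lin2
import Pool.Agent.Work.MP_8da9ea_nt.CD.Lin3

/-!
# Closure dimension: the leaf lemmas plugged in
-/

set_option autoImplicit false

namespace Pool.Agent.Work.MP_8da9ea_nt.CD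

theorem end_Mul : StMul := prf_Mul prf_Add (prf_Tor prf_Add) prf_Sum

end Pool.Agent.Work.MP_8da9ea_nt.CD
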