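import Pool.Agent.Work.MP_8da9ea_nt.CD.Rel

/-!
# Closure dimension: the induction
-/

set_option autoImplicit false

namespace Pool.Agent.Work.MP_8da9ea_nt.CD

open Complex Submodule

lemma zero_mem_Lam (τ : ℂ) : (0 : ℂ) ∈ Lam τ := mem_Lam.2 ⟨0, 0, by simp⟩

lemma Lam_sub {L : IntermediateField ℚ ℂ} {τ x : ℂ} (hτ : τ ∈ L) (hx : x ∈ Lam τ) : x ∈ L := by
  obtain ⟨m, n, rfl⟩ := mem_Lam.1 hx
  exact add_mem (intCast_mem _ _) (mul_mem (intCast_mem _ _) hτ)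

lemma isInt_int (τ : ℂ) (m : ℤ) : IsInt τ m :=
  ⟨mem_Lam.2 ⟨m, 0, by simp⟩, mem_Lam.2 ⟨0, m, by simp⟩⟩

section big

variable {s n : ℕ} {ω₁ τ : ℂ} (t : Fin s → ℂ) (p : Fin n → ℂ)

lemma base_big (h1 : ω₁ ≠ 0) (hτ : 0 < τ.im) : Base τ (acl (bigField ω₁ (ω₁ * τ) t p)) where
  ac := AC_acl _
  tau := le_acl _ (big_tau t p h1)
  et := le_acl _ (big_et t p h1)
  kap := le_acl _ (big_pi t p h1 hτ)
  g2 := le_acl _ (mul_mem (ofNat_mem (bigField ω₁ (ω₁ * τ) t p) 60) (big_gk4 t p h1))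
  g3 := le_acl _ (mul_mem (ofNat_mem (bigField ω₁ (ω₁ * τ) t p) 140) (big_gk6 t p h1))

lemma z_mem (j : Fin n) : p j / ω₁ ∈ acl (bigField ω₁ (ω₁ * τ) t p) :=
  le_acl _ (div_mem (big_p _ _ _ _ _) (big_o1 _ _ _ _))

lemma comb_mem (h1 : ω₁ ≠ 0) (hτ : 0 < τ.im) (g : Fin n → ℂ) (hg : ∀ j, IsInt τ (g j)) :
    ∑ j, g j * (p j / ω₁) ∈ acl (bigField ω₁ (ω₁ * τ) t p) :=
  sum_mem fun j _ => mul_mem (Lam_sub (base_big t p h1 hτ).tau (hg j).1) (z_mem t p j)

lemma good_comb (hAdd : StAdd) (hMul : StMul) (h1 : ω₁ ≠ 0) (hτ : 0 < τ.im) (g : Fin n → ℂ)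
    (hg : ∀ j, IsInt τ (g j)) :
    Good τ (acl (bigField ω₁ (ω₁ * τ) t p)) (∑ j, g j * (p j / ω₁)) := by
  classical
  have hB := base_big t p h1 hτ
  have key : ∀ s : Finset (Fin n), Good τ (acl (bigField ω₁ (ω₁ * τ) t p))
      (∑ j ∈ s, g j * (p j / ω₁)) := by
    intro s
    induction s using Finset.induction_on with
    | empty =>
      rw [Finset.sum_empty]
      exact Or.inl (zero_mem_Lam τ)
    | insert a s ha ih =>
      rw [Finset.sum_insert ha]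
      refine hAdd τ hτ _ hB _ _ (hMul τ hτ _ hB _ _ (hg a) (z_mem t p a) ?_) ih
      exact Or.inr ⟨le_acl _ (big_wp' t p h1 a), le_acl _ (big_zt' t p h1 a)⟩
  exact key _

lemma tcomb_mem (m : Fin s → ℤ) : ∑ l, (m l : ℂ) * t l ∈ acl (bigField ω₁ (ω₁ * τ) t p) :=
  le_acl _ (sum_mem fun _ _ => mul_mem (intCast_mem _ _) (big_t _ _ _ _ _))

lemma texp_mem (m : Fin s → ℤ) :
    exp (∑ l, (m l : ℂ) * t l) ∈ acl (bigField ω₁ (ω₁ * τ) t p) := by
  refine le_acl _ ?_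
  rw [Complex.exp_sum]
  refine prod_mem fun l _ => ?_
  rw [Complex.exp_int_mul]
  exact zpow_mem (big_exp _ _ _ _ _) _

end big

section steps

variable {s n : ℕ} {ω₁ τ : ℂ} {t : Fin s → ℂ} {p : Fin n → ℂ} {K K' : IntermediateField ℚ ℂ}

/-- no points added -/
lemma base_fix (h1 : ω₁ ≠ 0) (hτ : 0 < τ.im) (hK : Closed K) (hc : Countable K) (hτK : τ ∈ K) :
    RelTr (acl (bigField ω₁ (ω₁ * τ) t p)) K (modDim K t + modDim2 K ω₁ (ω₁ * τ) p +
      min 1 (modDim K t + modDim2 K ω₁ (ω₁ * τ) p)) := by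
  classical
  have hdiv : ω₁ * τ / ω₁ = τ := mul_div_cancel_left₀ _ h1
  obtain ⟨Jp, hJpc, hJp⟩ := modDim2_le K (ω₁ := ω₁) (ω₂ := ω₁ * τ) (by rw [hdiv]; exact hτ.ne')
    (by rw [hdiv]; exact hτK) p
  rw [hdiv] at hJp
  obtain ⟨J, hJc, hJ⟩ := exists_mod_basis K t
  rcases Nat.eq_zero_or_pos (Jp.card + J.card) with h0 | hpos
  · have e1 : modDim K t = 0 := by omega
    have e2 : modDim2 K ω₁ (ω₁ * τ) p = 0 := by omega
    rw [e1, e2]
    exact relTr_zero _ _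
  · let e : Fin Jp.card ≃ Jp := Jp.equivFin.symm
    set z : Fin Jp.card → ℂ := fun i => p (e i) / ω₁ with hz
    have hzi : ∀ g : Fin Jp.card → ℂ, (∀ i, IsEnd τ (g i)) → ∑ i, g i * z i ∈ K → g = 0 := by
      intro g hg hm
      have h2 := hJp (fun j => g (e.symm j)) (fun j => hg _) (by
        rw [← e.sum_comp]
        simpa [hz] using hm)
      funext i
      have h3 := congrFun h2 (e i)
      simpa using h3
    let e' : Fin J.card ≃ J := J.equivFin.symm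
    set t' : Fin J.card → ℂ := fun l => t (e' l) with ht'
    have hti : ∀ m : Fin J.card → ℤ, ∑ l, (m l : ℂ) * t' l ∈ K → m = 0 := by
      intro m hm
      have h2 := hJ (fun j => m (e'.symm j)) (by
        rw [← e'.sum_comp]
        simpa [ht'] using hm)
      funext l
      have h3 := congrFun h2 (e' l)
      simpa using h3
    obtain ⟨S, hS, hScard⟩ := prf_Fix K hK hc Jp.card J.card τ hτ hτK z t' hpos hzi hti
    refine relTr_of_family hS ?_ ?_
    · rintro ⟨⟨k, i⟩ | ⟨k, l⟩, hi⟩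
      · fin_cases k
        · exact z_mem t p _
        · exact le_acl _ (big_wp' t p h1 _)
        · exact le_acl _ (big_zt' t p h1 _)
      · fin_cases k
        · exact le_acl _ (big_t _ _ _ _ _)
        · exact le_acl _ (big_exp _ _ _ _ _)
    · rw [Fintype.card_coe, ← hJc]
      omega

/-- one step, fixed curve -/
lemma step_fix (hLin : StLin) (hLin2 : StLin2) (hAdd : StAdd) (hMul : StMul) (h1 : ω₁ ≠ 0)
    (hτ : 0 < τ.im) (hK : Closed K) (hc : Countable K) (hK' : Closed K') (hKK : K ≤ K')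
    (hτK : τ ∈ K) {x : ℂ} (hx : x ∈ acl (bigField ω₁ (ω₁ * τ) t p)) (hxK' : x ∈ K') (hxK : x ∉ K) :
    ∃ e, RelTr (acl (bigField ω₁ (ω₁ * τ) t p) ⊓ K') K (e + 1) ∧
      modDim K t + modDim2 K ω₁ (ω₁ * τ) p ≤
        e + (modDim K' t + modDim2 K' ω₁ (ω₁ * τ) p) := by
  classical
  have hdiv : ω₁ * τ / ω₁ = τ := mul_div_cancel_left₀ _ h1
  obtain ⟨a, m, hmK', hmK, hmd⟩ := hLin K K' hKK s t
  obtain ⟨b, g, hg, hgK', hgK, hgd⟩ := hLin2 K K' hKK ω₁ (ω₁ * τ) (by rw [hdiv]; exact hτ.ne')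
    (by rw [hdiv]; exact hτK) n p
  rw [hdiv] at hg hgK
  set z : Fin b → ℂ := fun i => ∑ j, g i j * (p j / ω₁) with hz
  set t' : Fin a → ℂ := fun i => ∑ l, (m i l : ℂ) * t l with ht'
  refine ⟨a + 2 * b, ?_, by omega⟩
  rcases Nat.eq_zero_or_pos (b + a) with h0 | hpos
  · have e1 : a + 2 * b + 1 = 1 := by omega
    rw [e1]
    exact relTr_one hK.alg (show x ∈ acl (bigField ω₁ (ω₁ * τ) t p) ⊓ K' from ⟨hx, hxK'⟩) hxK
  · obtain ⟨S, hS, hScard⟩ := prf_Fix K hK hc b a τ hτ hτK z t' hpos hgK hmK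
    have hzL : ∀ i, z i ∉ Lam τ := by
      intro i hi
      have h2 := hgK (Pi.single i 1) (fun j => by
        by_cases hj : j = i
        · subst hj
          rw [Pi.single_eq_same]
          exact isEnd_one τ
        · rw [Pi.single_eq_of_ne hj]
          exact isEnd_zero τ) (by
        rw [Finset.sum_eq_single i]
        · rw [Pi.single_eq_same, one_mul]
          exact Lam_sub hτK hi
        · intro j _ hj
          rw [Pi.single_eq_of_ne hj, zero_mul]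
        · intro h
          exact absurd (Finset.mem_univ i) h)
      have h3 := congrFun h2 i
      simp at h3
    have hgood : ∀ i, wp 1 τ (z i) ∈ acl (bigField ω₁ (ω₁ * τ) t p) ∧
        zt 1 τ (z i) ∈ acl (bigField ω₁ (ω₁ * τ) t p) := fun i =>
      (good_comb t p hAdd hMul h1 hτ (g i) (hg i)).resolve_left (hzL i)
    have hτK' := hKK hτK
    refine relTr_of_family hS ?_ ?_
    · rintro ⟨⟨k, i⟩ | ⟨k, l⟩, hi⟩
      · fin_cases k
        · exact ⟨comb_mem t p h1 hτ (g i) (hg i), hgK' i⟩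
        · exact ⟨(hgood i).1, closed_wp hK' (one_mem _) hτK' (hgK' i)⟩
        · exact ⟨(hgood i).2, closed_zt hK' (one_mem _) hτK' (hgK' i)⟩
      · fin_cases k
        · exact ⟨tcomb_mem t p (m l), hmK' l⟩
        · exact ⟨texp_mem t p (m l), closed_exp hK' (hmK' l)⟩
    · rw [Fintype.card_coe]
      omega

/-- one step, exponentials only -/
lemma step_exp (hLin : StLin) (hK : Closed K) (hc : Countable K) (hK' : Closed K') (hKK : K ≤ K')
    {x : ℂ} (hx : x ∈ acl (bigField ω₁ (ω₁ * τ) t p)) (hxK' : x ∈ K') (hxK : x ∉ K) :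
    ∃ e, RelTr (acl (bigField ω₁ (ω₁ * τ) t p) ⊓ K') K (e + 1) ∧
      modDim K t ≤ e + modDim K' t := by
  classical
  obtain ⟨a, m, hmK', hmK, hmd⟩ := hLin K K' hKK s t
  set t' : Fin a → ℂ := fun i => ∑ l, (m i l : ℂ) * t l with ht'
  refine ⟨a, ?_, hmd⟩
  rcases Nat.eq_zero_or_pos a with h0 | hpos
  · have e1 : a + 1 = 1 := by omega
    rw [e1]
    exact relTr_one hK.alg (show x ∈ acl (bigField ω₁ (ω₁ * τ) t p) ⊓ K' from ⟨hx, hxK'⟩) hxK
  · have hI : (0 : ℝ) < (I : ℂ).im := by simp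
    have hIK : (I : ℂ) ∈ K := by
      refine hK.alg I ⟨Polynomial.X ^ 2 + 1, ?_, by simp⟩
      intro h
      have := congrArg (Polynomial.eval 0) h
      simp at this
    obtain ⟨S, hS, hScard⟩ := prf_Fix K hK hc 0 a I hI hIK (fun i => i.elim0) t' (by omega)
      (fun g _ _ => funext fun i => i.elim0) hmK
    refine relTr_of_family hS ?_ ?_
    · rintro ⟨⟨k, i⟩ | ⟨k, l⟩, hi⟩
      · exact i.elim0
      · fin_cases k
        · exact ⟨tcomb_mem t p (m l), hmK' l⟩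
        · exact ⟨texp_mem t p (m l), closed_exp hK' (hmK' l)⟩
    · rw [Fintype.card_coe]
      omega

/-- no points added, moving curve -/
lemma base_mov (hLin3 : StLin3) (hLin : StLin) (hAdd : StAdd) (hMul : StMul) (h1 : ω₁ ≠ 0)
    (hτ : 0 < τ.im) (hK : Closed K) (hc : Countable K)
    (hτK : τ ∉ K) (hKK : K ≤ K') (hτK' : τ ∈ K') (hK' : Closed K') :
    ∃ a b, RelTr (acl (bigField ω₁ (ω₁ * τ) t p) ⊓ K') K (4 + 2 * b + a) ∧
      modDim K t ≤ a + modDim K' t ∧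
      2 * pDim ω₁ (ω₁ * τ) p ≤ 2 * b + modDim2 K' ω₁ (ω₁ * τ) p := by
  classical
  have hdiv : ω₁ * τ / ω₁ = τ := mul_div_cancel_left₀ _ h1
  have hCM : ¬ IsCM ω₁ (ω₁ * τ) := by
    refine not_CM_of ?_
    rw [hdiv]
    intro h
    refine hτK (hK.alg τ ?_)
    exact h.extendScalars (algebraMap ℚ K).injective
  obtain ⟨a, m, hmK', hmK, hmd⟩ := hLin K K' hKK s t
  obtain ⟨b, g, hgK', hgi, hgd⟩ := hLin3 K' ω₁ (ω₁ * τ) (by rw [hdiv]; exact hτ.ne')
    (by rw [hdiv]; exact hτK') hCM n p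
  rw [hdiv] at hgi
  set z : Fin b → ℂ := fun i => ∑ j, (g i j : ℂ) * (p j / ω₁) with hz
  set t' : Fin a → ℂ := fun i => ∑ l, (m i l : ℂ) * t l with ht'
  refine ⟨a, b, ?_, hmd, hgd⟩
  obtain ⟨S, hS, hScard⟩ := prf_Mov K hK hc b a τ hτ hτK z t' hgi hmK
  have hB := base_big t p h1 hτ
  have hzL : ∀ i, z i ∉ Lam τ := by
    intro i hi
    obtain ⟨u, v, huv⟩ := mem_Lam.1 hi
    have h2 := hgi (Pi.single i 1) u v (by
      rw [Finset.sum_eq_single i]
      · rw [Pi.single_eq_same, Int.cast_one, one_mul]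
        exact huv
      · intro j _ hj
        rw [Pi.single_eq_of_ne hj, Int.cast_zero, zero_mul]
      · intro h
        exact absurd (Finset.mem_univ i) h)
    have h3 := congrFun h2 i
    simp at h3
  have hgood : ∀ i, wp 1 τ (z i) ∈ acl (bigField ω₁ (ω₁ * τ) t p) ∧
      zt 1 τ (z i) ∈ acl (bigField ω₁ (ω₁ * τ) t p) := fun i =>
    (good_comb t p hAdd hMul h1 hτ (fun j => (g i j : ℂ))
      (fun j => isInt_int τ (g i j))).resolve_left (hzL i)
  have h2K : (2 : ℂ) ∈ K' := ofNat_mem K' 2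
  refine relTr_of_family hS ?_ (by rw [Fintype.card_coe]; omega)
  rintro ⟨k | ⟨k, i⟩ | ⟨k, l⟩, hi⟩
  · fin_cases k
    · exact ⟨hB.tau, hτK'⟩
    · exact ⟨hB.et, mul_mem h2K (closed_zt hK' (one_mem _) hτK' (div_mem (one_mem _) h2K))⟩
    · exact ⟨hB.g2, mul_mem (ofNat_mem K' 60) (closed_g4 hK' (one_mem _) hτK')⟩
    · exact ⟨hB.g3, mul_mem (ofNat_mem K' 140) (closed_g6 hK' (one_mem _) hτK')⟩
  · fin_cases k
    · exact ⟨comb_mem t p h1 hτ (fun j => (g i j : ℂ)) (fun j => isInt_int τ (g i j)), hgK' i⟩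
    · exact ⟨(hgood i).1, closed_wp hK' (one_mem _) hτK' (hgK' i)⟩
    · exact ⟨(hgood i).2, closed_zt hK' (one_mem _) hτK' (hgK' i)⟩
  · fin_cases k
    · exact ⟨tcomb_mem t p (m l), hmK' l⟩
    · exact ⟨texp_mem t p (m l), closed_exp hK' (hmK' l)⟩

end steps

end Pool.Agent.Work.MP_8da9ea_nt.CD
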