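import Pool.Agent.Work.MP_8da9ea_nt.CD.Defs

/-!
# Closure dimension: the closure operator
-/

set_option autoImplicit false

namespace Pool.Agent.Work.MP_8da9ea_nt.CD

open Complex Submodule

lemma mem_cl {S : Set ℂ} {x : ℂ} :
    x ∈ cl S ↔ ∀ K : IntermediateField ℚ ℂ, Closed K → S ⊆ K → x ∈ K := by
  unfold cl
  rw [IntermediateField.mem_sInf]
  exact ⟨fun h K h1 h2 => h K ⟨h1, h2⟩, fun h K hK => h K hK.1 hK.2⟩

lemma subset_cl (S : Set ℂ) : S ⊆ cl S := fun _ hx => mem_cl.2 fun _ _ h2 => h2 hx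

lemma cl_min {S : Set ℂ} {K : IntermediateField ℚ ℂ} (hK : Closed K) (h : S ⊆ K) : cl S ≤ K :=
  fun _ hx => mem_cl.1 hx K hK h

lemma closed_cl (S : Set ℂ) : Closed (cl S) where
  alg := by
    intro x hx
    refine mem_cl.2 fun K hK hS => hK.alg x ?_
    obtain ⟨p, hp0, hp⟩ := hx
    have hle : cl S ≤ K := cl_min hK hS
    refine ⟨p.map (IntermediateField.inclusion hle : cl S →+* K), ?_, ?_⟩
    · rwa [Ne, Polynomial.map_eq_zero_iff (IntermediateField.inclusion hle :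
        cl S →+* K).injective]
    · rw [Polynomial.aeval_def, Polynomial.eval₂_map]
      exact hp
  kap := mem_cl.2 fun _ hK _ => hK.kap
  op := fun s hs x hx => mem_cl.2 fun K hK hS =>
    hK.op s (fun y hy => mem_cl.1 (hs hy) K hK hS) hx

lemma cl_mono {S T : Set ℂ} (h : S ⊆ T) : cl S ≤ cl T :=
  cl_min (closed_cl T) (h.trans (subset_cl T))

lemma cl_idem (S : Set ℂ) : cl (cl S : Set ℂ) = cl S :=
  le_antisymm (cl_min (closed_cl S) (fun _ hx => hx)) (subset_cl _)

/-! ## closed fields -/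

section closed

variable {K : IntermediateField ℚ ℂ}

lemma fgF_le (hK : Closed K) {s : Finset ℂ} (hs : (s : Set ℂ) ⊆ K) : fgF s ≤ K := by
  unfold fgF
  rw [IntermediateField.adjoin_le_iff]
  rintro x (rfl | hx)
  · exact hK.kap
  · exact hs hx

lemma mem_fgF {s : Finset ℂ} {x : ℂ} (hx : x ∈ s) : x ∈ fgF s :=
  IntermediateField.subset_adjoin _ _ (Or.inr hx)

lemma kap_fgF (s : Finset ℂ) : kap ∈ fgF s := IntermediateField.subset_adjoin _ _ (Or.inl rfl)

lemma fgF_mono {s t : Finset ℂ} (h : s ⊆ t) : fgF s ≤ fgF t :=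
  IntermediateField.adjoin.mono _ _ _ (Set.insert_subset_insert (by exact_mod_cast h))

lemma closed_exp (hK : Closed K) {x : ℂ} (hx : x ∈ K) : exp x ∈ K :=
  hK.op {x} (by simpa using hx)
    (Or.inl (Or.inl (Or.inl (Or.inr ⟨x, mem_fgF (by simp), rfl⟩))))

lemma closed_j (hK : Closed K) {x : ℂ} (hx : x ∈ K) : jInv 1 x ∈ K :=
  hK.op {x} (by simpa using hx)
    (Or.inl (Or.inl (Or.inr ⟨x, mem_fgF (by simp), rfl⟩)))

lemma closed_jfib (hK : Closed K) {τ : ℂ} (hτ : 0 < τ.im) (hx : jInv 1 τ ∈ K) : τ ∈ K := by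
  refine hK.op {jInv 1 τ} (by simpa using hx) (Or.inl (Or.inr ?_))
  rw [Set.mem_iUnion₂]
  exact ⟨jInv 1 τ, mem_fgF (by simp), hτ, rfl⟩

lemma closed_g4 (hK : Closed K) {a b : ℂ} (ha : a ∈ K) (hb : b ∈ K) : gk 4 a b ∈ K := by
  classical
  refine hK.op {a, b} ?_ (Or.inr (Or.inr (Or.inl (Or.inl (Or.inl ⟨(a, b), ⟨?_, ?_⟩, rfl⟩)))))
  · intro x hx
    simp only [Finset.coe_insert, Finset.coe_singleton, Set.mem_insert_iff,
      Set.mem_singleton_iff] at hx
    rcases hx with rfl | rfl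
    · exact ha
    · exact hb
  · exact mem_fgF (by simp)
  · exact mem_fgF (by simp)

lemma closed_g6 (hK : Closed K) {a b : ℂ} (ha : a ∈ K) (hb : b ∈ K) : gk 6 a b ∈ K := by
  classical
  refine hK.op {a, b} ?_ (Or.inr (Or.inr (Or.inl (Or.inl (Or.inr ⟨(a, b), ⟨?_, ?_⟩, rfl⟩)))))
  · intro x hx
    simp only [Finset.coe_insert, Finset.coe_singleton, Set.mem_insert_iff,
      Set.mem_singleton_iff] at hx
    rcases hx with rfl | rfl
    · exact ha
    · exact hb
  · exact mem_fgF (by simp)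
  · exact mem_fgF (by simp)

lemma closed_wp (hK : Closed K) {a b c : ℂ} (ha : a ∈ K) (hb : b ∈ K) (hc : c ∈ K) :
    wp a b c ∈ K := by
  classical
  refine hK.op {a, b, c} ?_ (Or.inr (Or.inr (Or.inl (Or.inr ⟨(a, b, c), ⟨?_, ?_, ?_⟩, rfl⟩))))
  · intro x hx
    simp only [Finset.coe_insert, Finset.coe_singleton, Set.mem_insert_iff,
      Set.mem_singleton_iff] at hx
    rcases hx with rfl | rfl | rfl
    · exact ha
    · exact hb
    · exact hc
  · exact mem_fgF (by simp)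
  · exact mem_fgF (by simp)
  · exact mem_fgF (by simp)

lemma closed_zt (hK : Closed K) {a b c : ℂ} (ha : a ∈ K) (hb : b ∈ K) (hc : c ∈ K) :
    zt a b c ∈ K := by
  classical
  refine hK.op {a, b, c} ?_ (Or.inr (Or.inr (Or.inr ⟨(a, b, c), ⟨?_, ?_, ?_⟩, rfl⟩)))
  · intro x hx
    simp only [Finset.coe_insert, Finset.coe_singleton, Set.mem_insert_iff,
      Set.mem_singleton_iff] at hx
    rcases hx with rfl | rfl | rfl
    · exact ha
    · exact hb
    · exact hc
  · exact mem_fgF (by simp)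
  · exact mem_fgF (by simp)
  · exact mem_fgF (by simp)

lemma closed_big (hK : Closed K) {ω₁ ω₂ : ℂ} (h1 : ω₁ ∈ K) (h2 : ω₂ ∈ K) {s n : ℕ}
    {t : Fin s → ℂ} {p : Fin n → ℂ} (ht : ∀ l, t l ∈ K) (hp : ∀ i, p i ∈ K) :
    bigField ω₁ ω₂ t p ≤ K := by
  have h2K : (2 : ℂ) ∈ K := ofNat_mem K 2
  refine big_le ω₁ ω₂ t p ht (fun l => closed_exp hK (ht l))
    (mul_mem (ofNat_mem K 60) (closed_g4 hK h1 h2))
    (mul_mem (ofNat_mem K 140) (closed_g6 hK h1 h2)) hp (fun i => closed_wp hK h1 h2 (hp i))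
    (fun i => closed_zt hK h1 h2 (hp i)) h1 h2 ?_ ?_
  · exact mul_mem h2K (closed_zt hK h1 h2 (div_mem h1 h2K))
  · exact mul_mem h2K (closed_zt hK h1 h2 (div_mem h2 h2K))

lemma closed_jiff (hK : Closed K) {ω₁ ω₂ : ℂ} (him : (ω₂ / ω₁).im ≠ 0) :
    jInv ω₁ ω₂ ∈ K ↔ ω₂ / ω₁ ∈ K := by
  have h1 : ω₁ ≠ 0 := by
    rintro rfl
    simp at him
  have hω : ω₂ = ω₁ * (ω₂ / ω₁) := by field_simp
  rcases lt_or_gt_of_ne him with hlt | hgt
  · have h2 : jInv ω₁ ω₂ = jInv 1 (-(ω₂ / ω₁)) := by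
      rw [jInv_neg, ← jInv_smul h1, ← hω]
    rw [h2]
    constructor
    · intro h
      have h3 := closed_jfib hK (by simpa using hlt) h
      have h4 := neg_mem h3
      rwa [neg_neg] at h4
    · intro h
      exact closed_j hK (neg_mem h)
  · have h2 : jInv ω₁ ω₂ = jInv 1 (ω₂ / ω₁) := by
      rw [← jInv_smul h1, ← hω]
    rw [h2]
    exact ⟨closed_jfib hK hgt, closed_j hK⟩

end closed

/-! ## countability -/

/-- the operation on fields -/
noncomputable def EE (K : IntermediateField ℚ ℂ) : Set ℂ :=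
  ⋃ s ∈ {s : Finset ℂ | (s : Set ℂ) ⊆ K}, Eop2 fx_prop (fgF s)

lemma fgF_countable (s : Finset ℂ) : Countable (fgF s) :=
  countable_adjoin _ ((Set.countable_singleton kap).union s.countable_toSet |>.mono (by
    rintro x (rfl | hx)
    · exact Or.inl rfl
    · exact Or.inr hx))

lemma finsets_countable {A : Set ℂ} (hA : A.Countable) : {s : Finset ℂ | (s : Set ℂ) ⊆ A}.Countable := by
  classical
  have : Countable A := hA.to_subtype
  have h1 : {s : Finset ℂ | (s : Set ℂ) ⊆ A} ⊆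
      Set.range (fun s : Finset A => s.map (Function.Embedding.subtype _)) := by
    intro s hs
    refine ⟨s.subtype (· ∈ A), ?_⟩
    ext x
    simp only [Finset.mem_map, Finset.mem_subtype, Function.Embedding.subtype_apply, Subtype.exists,
      exists_and_left, exists_prop, exists_eq_right_right]
    exact ⟨fun h => h.1, fun h => ⟨h, hs h⟩⟩
  exact (Set.countable_range _).mono h1

lemma EE_countable (K : IntermediateField ℚ ℂ) (hK : Countable K) : (EE K).Countable := by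
  have hK' : ((K : IntermediateField ℚ ℂ) : Set ℂ).Countable := Set.to_countable _
  exact (finsets_countable hK').biUnion fun s _ => Eop2_countable fx_prop _ (fgF_countable s)

lemma closed_union (S : Set ℂ) : Closed (unionF EE (insert kap S)) where
  alg := fun _ hx => unionF_alg hx
  kap := subset_unionF (Or.inl rfl)
  op := by
    intro s hs x hx
    obtain ⟨j, hj⟩ := exists_chain_of_finset s (fun y hy => hs hy)
    refine mem_unionF.2 ⟨j + 1, chainF_E j ?_⟩
    unfold EE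
    rw [Set.mem_iUnion₂]
    exact ⟨s, fun y hy => hj y hy, hx⟩

theorem prf_ClC : StClC := by
  intro S hS
  have h1 : Countable (unionF EE (insert kap S)) := unionF_countable EE_countable (hS.insert _)
  have h2 : ((unionF EE (insert kap S) : IntermediateField ℚ ℂ) : Set ℂ).Countable :=
    Set.to_countable _
  refine h2.mono ?_
  exact cl_min (closed_union S) (fun x hx => subset_unionF (Or.inr hx))

/-- the union of the closures of the finite subsets -/
noncomputable def finCl (S : Set ℂ) : IntermediateField ℚ ℂ :=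
  ⨆ T : {T : Finset ℂ // (T : Set ℂ) ⊆ S}, cl (T.1 : Set ℂ)

lemma mem_finCl {S : Set ℂ} {x : ℂ} :
    x ∈ finCl S ↔ ∃ T : Finset ℂ, (T : Set ℂ) ⊆ S ∧ x ∈ cl (T : Set ℂ) := by
  classical
  have hne : Nonempty {T : Finset ℂ // (T : Set ℂ) ⊆ S} := ⟨⟨∅, by simp⟩⟩
  have hdir : Directed (· ≤ ·) (fun T : {T : Finset ℂ // (T : Set ℂ) ⊆ S} =>
      cl (T.1 : Set ℂ)) := by
    rintro ⟨T, hT⟩ ⟨U, hU⟩
    refine ⟨⟨T ∪ U, ?_⟩, cl_mono ?_, cl_mono ?_⟩
    · rw [Finset.coe_union]
      exact Set.union_subset hT hU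
    · simp
    · simp
  have h1 : ((finCl S : IntermediateField ℚ ℂ) : Set ℂ) =
      ⋃ T : {T : Finset ℂ // (T : Set ℂ) ⊆ S}, (cl (T.1 : Set ℂ) : Set ℂ) :=
    IntermediateField.coe_iSup_of_directed hdir
  have h2 : x ∈ ((finCl S : IntermediateField ℚ ℂ) : Set ℂ) ↔ ∃ T : Finset ℂ, (T : Set ℂ) ⊆ S ∧
      x ∈ cl (T : Set ℂ) := by
    rw [h1, Set.mem_iUnion]
    exact ⟨fun ⟨T, h⟩ => ⟨T.1, T.2, h⟩, fun ⟨T, h, h'⟩ => ⟨⟨T, h⟩, h'⟩⟩
  exact h2

/-- finitely many elements of the union lie in one closure -/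
lemma exists_finCl {S : Set ℂ} (s : Finset ℂ) (hs : ∀ x ∈ s, x ∈ finCl S) :
    ∃ T : Finset ℂ, (T : Set ℂ) ⊆ S ∧ ∀ x ∈ s, x ∈ cl (T : Set ℂ) := by
  classical
  induction s using Finset.induction_on with
  | empty => exact ⟨∅, by simp, by simp⟩
  | insert a s _ ih =>
    obtain ⟨T, hT, hs'⟩ := ih fun x hx => hs x (Finset.mem_insert_of_mem hx)
    obtain ⟨U, hU, ha⟩ := mem_finCl.1 (hs a (Finset.mem_insert_self a s))
    refine ⟨T ∪ U, ?_, ?_⟩
    · rw [Finset.coe_union]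
      exact Set.union_subset hT hU
    · intro x hx
      rcases Finset.mem_insert.1 hx with rfl | h
      · exact cl_mono (by simp) ha
      · exact cl_mono (by simp) (hs' x h)

lemma closed_finCl (S : Set ℂ) : Closed (finCl S) where
  alg := by
    classical
    intro x hx
    obtain ⟨p, hp0, hp⟩ := hx
    obtain ⟨T, hT, hc⟩ := exists_finCl (S := S) (p.coeffs.image (fun c : finCl S => (c : ℂ))) (by
        intro x hx
        obtain ⟨c, -, rfl⟩ := Finset.mem_image.1 hx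
        exact c.2)
    have hle : cl (T : Set ℂ) ≤ finCl S := fun x hx => mem_finCl.2 ⟨T, hT, hx⟩
    have hmem : p ∈ Polynomial.lifts
        (IntermediateField.inclusion hle : cl (T : Set ℂ) →+* finCl S) := by
      rw [Polynomial.lifts_iff_coeffs_subset_range]
      intro c hc'
      exact ⟨⟨c, hc _ (Finset.mem_image_of_mem _ hc')⟩, rfl⟩
    obtain ⟨q, hq⟩ := (Polynomial.mem_lifts p).1 hmem
    refine mem_finCl.2 ⟨T, hT, (closed_cl _).alg x ⟨q, ?_, ?_⟩⟩
    · rintro rfl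
      apply hp0
      rw [← hq, Polynomial.map_zero]
    · rw [← hp, ← hq, Polynomial.aeval_def, Polynomial.aeval_def, Polynomial.eval₂_map]
      rfl
  kap := mem_finCl.2 ⟨∅, by simp, (closed_cl _).kap⟩
  op := by
    intro s hs x hx
    obtain ⟨T, hT, hc⟩ := exists_finCl (S := S) s (fun y hy => hs hy)
    exact mem_finCl.2 ⟨T, hT, (closed_cl _).op s (fun y hy => hc y hy) hx⟩

theorem prf_ClF : StClF := by
  intro S x hx
  refine mem_finCl.1 (cl_min (closed_finCl S) (fun y hy => ?_) hx)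
  exact mem_finCl.2 ⟨{y}, by simpa using hy, subset_cl _ (by simp)⟩

end Pool.Agent.Work.MP_8da9ea_nt.CD
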