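import Pool.Agent.Work.MP_8da9ea_nt.FixEnd
import Pool.Agent.Work.MP_8da9ea_nt.Stmt5

/-!
# Closure dimension: definitions
-/

set_option autoImplicit false

namespace Pool.Agent.Work.MP_8da9ea_nt.CD

/-- the finitely generated field `ℚ(2πi, s)` -/
noncomputable def fgF (s : Finset ℂ) : IntermediateField ℚ ℂ :=
  IntermediateField.adjoin ℚ (insert kap (s : Set ℂ))

/-- the fields of constants -/
structure Closed (K : IntermediateField ℚ ℂ) : Prop where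
  alg : ∀ x : ℂ, IsAlgebraic K x → x ∈ K
  kap : kap ∈ K
  op : ∀ s : Finset ℂ, (s : Set ℂ) ⊆ K → Eop2 fx_prop (fgF s) ⊆ K

/-- the closure of a set -/
noncomputable def cl (S : Set ℂ) : IntermediateField ℚ ℂ := sInf {K | Closed K ∧ S ⊆ K}

/-- `L` contains `d` numbers that are algebraically independent over `K` -/
def RelTr (L K : IntermediateField ℚ ℂ) (d : ℕ) : Prop :=
  ∃ x : Fin d → ℂ, (∀ j, x j ∈ L) ∧ AlgebraicIndependent K x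

/-- algebraically closed in `ℂ` -/
def AC (L : IntermediateField ℚ ℂ) : Prop := ∀ x : ℂ, IsAlgebraic L x → x ∈ L

/-- an integral endomorphism of the lattice `ℤ + ℤτ` -/
def IsInt (τ g : ℂ) : Prop := g ∈ Lam τ ∧ g * τ ∈ Lam τ

/-- a lattice point, or a point where both Weierstrass functions have values in `L` -/
def Good (τ : ℂ) (L : IntermediateField ℚ ℂ) (a : ℂ) : Prop :=
  a ∈ Lam τ ∨ (wp 1 τ a ∈ L ∧ zt 1 τ a ∈ L)

/-- `L` is algebraically closed in `ℂ` and contains the invariants, periods and quasi-periods -/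
structure Base (τ : ℂ) (L : IntermediateField ℚ ℂ) : Prop where
  ac : AC L
  tau : τ ∈ L
  et : et τ ∈ L
  kap : kap ∈ L
  g2 : gg2 τ ∈ L
  g3 : gg3 τ ∈ L

/-! ## the statements -/

/-- the closure is countable -/
def StClC : Prop := ∀ S : Set ℂ, S.Countable → (cl S : Set ℂ).Countable

/-- the closure is finitary -/
def StClF : Prop := ∀ (S : Set ℂ) (x : ℂ), x ∈ cl S → ∃ T : Finset ℂ, (T : Set ℂ) ⊆ S ∧ x ∈ cl (T : Set ℂ)

/-- the theorem on a fixed curve over a closed field -/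
def StFix : Prop := ∀ (K : IntermediateField ℚ ℂ), Closed K → Countable K →
  ∀ (n s : ℕ) (τ : ℂ), 0 < τ.im → τ ∈ K → ∀ (z : Fin n → ℂ) (t : Fin s → ℂ), 0 < n + s →
    (∀ g : Fin n → ℂ, (∀ i, IsEnd τ (g i)) → ∑ i, g i * z i ∈ K → g = 0) →
    (∀ m : Fin s → ℤ, ∑ l, (m l : ℂ) * t l ∈ K → m = 0) →
      ∃ S : Finset ((Fin 3 × Fin n) ⊕ (Fin 2 × Fin s)),
        AlgebraicIndependent K
          (fun i : S => fxF z (fun i => wp 1 τ (z i)) (fun i => zt 1 τ (z i)) t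
            (fun j => Complex.exp (t j)) i) ∧
        2 * n + s + 1 ≤ S.card

/-- the theorem on a moving curve over a closed field -/
def StMov : Prop := ∀ (K : IntermediateField ℚ ℂ), Closed K → Countable K →
  ∀ (n s : ℕ) (τ : ℂ), 0 < τ.im → τ ∉ K → ∀ (z : Fin n → ℂ) (t : Fin s → ℂ),
    (∀ (m : Fin n → ℤ) (a b : ℤ), ∑ i, (m i : ℂ) * z i = a + b * τ → m = 0) →
    (∀ m : Fin s → ℤ, ∑ l, (m l : ℂ) * t l ∈ K → m = 0) →
      ∃ S : Finset (Fin 4 ⊕ ((Fin 3 × Fin n) ⊕ (Fin 2 × Fin s))),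
        AlgebraicIndependent K
          (fun i : S => asF τ (et τ) (gg2 τ) (gg3 τ) z (fun i => wp 1 τ (z i))
            (fun i => zt 1 τ (z i)) t (fun j => Complex.exp (t j)) i) ∧
        4 + 2 * n + s ≤ S.card

/-- integral combinations of the `t l` in the larger field, independent modulo the smaller one -/
def StLin : Prop := ∀ (K K' : IntermediateField ℚ ℂ), K ≤ K' → ∀ (s : ℕ) (t : Fin s → ℂ),
  ∃ (a : ℕ) (m : Fin a → Fin s → ℤ), (∀ i, ∑ l, (m i l : ℂ) * t l ∈ K') ∧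
    (∀ c : Fin a → ℤ, ∑ i, (c i : ℂ) * ∑ l, (m i l : ℂ) * t l ∈ K → c = 0) ∧
    modDim K t ≤ a + modDim K' t

/-- endomorphism combinations of the `p j / ω₁` in the larger field, independent modulo the smaller
one -/
def StLin2 : Prop := ∀ (K K' : IntermediateField ℚ ℂ), K ≤ K' →
  ∀ (ω₁ ω₂ : ℂ), (ω₂ / ω₁).im ≠ 0 → ω₂ / ω₁ ∈ K → ∀ (n : ℕ) (p : Fin n → ℂ),
  ∃ (b : ℕ) (g : Fin b → Fin n → ℂ), (∀ i j, IsInt (ω₂ / ω₁) (g i j)) ∧
    (∀ i, ∑ j, g i j * (p j / ω₁) ∈ K') ∧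
    (∀ c : Fin b → ℂ, (∀ i, IsEnd (ω₂ / ω₁) (c i)) → ∑ i, c i * ∑ j, g i j * (p j / ω₁) ∈ K → c = 0) ∧
    modDim2 K ω₁ ω₂ p ≤ 2 * b + modDim2 K' ω₁ ω₂ p

/-- integral combinations of the `p j / ω₁` in the larger field, independent modulo the lattice -/
def StLin3 : Prop := ∀ (K' : IntermediateField ℚ ℂ) (ω₁ ω₂ : ℂ), (ω₂ / ω₁).im ≠ 0 → ω₂ / ω₁ ∈ K' →
  ¬ IsCM ω₁ ω₂ → ∀ (n : ℕ) (p : Fin n → ℂ),
  ∃ (b : ℕ) (m : Fin b → Fin n → ℤ), (∀ i, ∑ j, (m i j : ℂ) * (p j / ω₁) ∈ K') ∧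
    (∀ (c : Fin b → ℤ) (u v : ℤ), ∑ i, (c i : ℂ) * ∑ j, (m i j : ℂ) * (p j / ω₁) =
      u + v * (ω₂ / ω₁) → c = 0) ∧
    2 * pDim ω₁ ω₂ p ≤ 2 * b + modDim2 K' ω₁ ω₂ p

/-- addition theorem -/
def StAdd : Prop := ∀ (τ : ℂ), 0 < τ.im → ∀ L : IntermediateField ℚ ℂ, Base τ L →
  ∀ a b : ℂ, Good τ L a → Good τ L b → Good τ L (a + b)

/-- torsion points -/
def StTor : Prop := ∀ (τ : ℂ), 0 < τ.im → ∀ L : IntermediateField ℚ ℂ, Base τ L →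
  ∀ (N : ℕ) (w : ℂ), 0 < N → (N : ℂ) * w ∈ Lam τ → Good τ L w

/-- the sum formulas for a multiplication -/
def StSum : Prop := ∀ (τ : ℂ), 0 < τ.im → ∀ g : ℂ, IsInt τ g → g ≠ 0 →
  ∃ (W : Finset ℂ) (c c₁ c₀ : ℂ), (∀ w ∈ W, g * w ∈ Lam τ ∧ ∃ N : ℕ, 0 < N ∧ (N : ℂ) * w ∈ Lam τ) ∧
    ∀ z : ℂ, g * z ∉ Lam τ →
      g ^ 2 * wp 1 τ (g * z) = ∑ w ∈ W, wp 1 τ (z + w) + c ∧
      g * zt 1 τ (g * z) = ∑ w ∈ W, zt 1 τ (z + w) + c₁ * z + c₀

/-- multiplication by an integral endomorphism -/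
def StMul : Prop := ∀ (τ : ℂ), 0 < τ.im → ∀ L : IntermediateField ℚ ℂ, Base τ L →
  ∀ g a : ℂ, IsInt τ g → a ∈ L → Good τ L a → Good τ L (g * a)

end Pool.Agent.Work.MP_8da9ea_nt.CD
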