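import Pool.Agent.Work.MP_8da9ea_nt.CD.Main

/-!
# Closure dimension: the final theorems, from the leaf lemmas
-/

set_option autoImplicit false

namespace Pool.Agent.Work.MP_8da9ea_nt.CD

open Complex Submodule

section fin

variable {s n : ℕ} {t : Fin s → ℂ} {p : Fin n → ℂ}

/-- all lattices with `j` in the field of constants -/
theorem all_fix (hLin : StLin) (hLin2 : StLin2) (hAdd : StAdd) (hMul : StMul) {ω₁ ω₂ : ℂ}
    (him : (ω₂ / ω₁).im ≠ 0) {S : Set ℂ} (hS : S.Countable) (hj : jInv ω₁ ω₂ ∈ cl S)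
    {r : ℕ} (z : Fin r → ℂ) (hzL : ∀ i, z i ∈ acl (bigField ω₁ ω₂ t p))
    (hz : ∀ i, z i ∉ cl (S ∪ z '' {j | j < i})) :
    RelTr (acl (bigField ω₁ ω₂ t p)) (cl S) (modDim (cl S) t + modDim2 (cl S) ω₁ ω₂ p +
      max r (min 1 (modDim (cl S) t + modDim2 (cl S) ω₁ ω₂ p))) := by
  have key : ∀ τ : ℂ, ω₁ ≠ 0 → 0 < τ.im → τ ∈ cl S →
      (∀ i, z i ∈ acl (bigField ω₁ (ω₁ * τ) t p)) →
      RelTr (acl (bigField ω₁ (ω₁ * τ) t p)) (cl S) (modDim (cl S) t +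
        modDim2 (cl S) ω₁ (ω₁ * τ) p +
        max r (min 1 (modDim (cl S) t + modDim2 (cl S) ω₁ (ω₁ * τ) p))) := by
    intro τ h1 hτ hτS hzL'
    rcases Nat.eq_zero_or_pos r with rfl | hr
    · exact (base_fix (t := t) (p := p) h1 hτ (closed_cl S) (prf_ClC S hS).to_subtype
        hτS).mono le_rfl le_rfl (by omega)
    · exact (asm_fix (t := t) (p := p) hLin hLin2 hAdd hMul h1 hτ r S hS hτS z hzL' hz).mono
        le_rfl le_rfl (by omega)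
  have h1 : ω₁ ≠ 0 := by
    rintro rfl
    simp at him
  have hτS : ω₂ / ω₁ ∈ cl S := (closed_jiff (closed_cl S) him).1 hj
  have hω : ω₂ = ω₁ * (ω₂ / ω₁) := by field_simp
  rcases lt_or_gt_of_ne him with hlt | hgt
  · have h2 : -ω₂ = ω₁ * (-(ω₂ / ω₁)) := by field_simp
    have h3 := key (-(ω₂ / ω₁)) h1 (by simpa using hlt) (neg_mem hτS) (by
      rw [← h2, bigField_neg]
      exact hzL)
    rwa [← h2, bigField_neg, modDim2_neg] at h3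
  · have h3 := key (ω₂ / ω₁) h1 hgt hτS (by rw [← hω]; exact hzL)
    rwa [← hω] at h3

/-- all lattices with `j` not in the field of constants -/
theorem all_mov (hLin : StLin) (hLin2 : StLin2) (hLin3 : StLin3) (hAdd : StAdd) (hMul : StMul)
    {ω₁ ω₂ : ℂ} (him : (ω₂ / ω₁).im ≠ 0) {S : Set ℂ} (hS : S.Countable)
    (hj : jInv ω₁ ω₂ ∉ cl S) {r : ℕ} (z : Fin r → ℂ)
    (hzL : ∀ i, z i ∈ acl (bigField ω₁ ω₂ t p)) (hz : ∀ i, z i ∉ cl (S ∪ z '' {j | j < i})) :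
    RelTr (acl (bigField ω₁ ω₂ t p)) (cl S)
      (modDim (cl S) t + 3 + 2 * pDim ω₁ ω₂ p + max 1 r) := by
  have h1 : ω₁ ≠ 0 := by
    rintro rfl
    simp at him
  have hτS : ω₂ / ω₁ ∉ cl S := fun h => hj ((closed_jiff (closed_cl S) him).2 h)
  have hω : ω₂ = ω₁ * (ω₂ / ω₁) := by field_simp
  rcases lt_or_gt_of_ne him with hlt | hgt
  · have h2 : -ω₂ = ω₁ * (-(ω₂ / ω₁)) := by field_simp
    have h3 := asm_mov (t := t) (p := p) (τ := -(ω₂ / ω₁)) hLin hLin2 hLin3 hAdd hMul h1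
      (by simpa using hlt) r S hS (fun h => hτS (by simpa using neg_mem h)) z (by
      rw [← h2, bigField_neg]
      exact hzL) hz
    rwa [← h2, bigField_neg, pDim_neg] at h3
  · have h3 := asm_mov (t := t) (p := p) (τ := ω₂ / ω₁) hLin hLin2 hLin3 hAdd hMul h1 hgt r S hS
      hτS z (by rw [← hω]; exact hzL) hz
    rwa [← hω] at h3

lemma closed_not_CM {K : IntermediateField ℚ ℂ} (hK : Closed K) {ω₁ ω₂ : ℂ}
    (him : (ω₂ / ω₁).im ≠ 0) (hj : jInv ω₁ ω₂ ∉ K) : ¬ IsCM ω₁ ω₂ := by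
  refine not_CM_of fun h => hj ((closed_jiff hK him).2 (hK.alg _ ?_))
  exact h.extendScalars (algebraMap ℚ K).injective

/-- the part of `t` in the field of constants -/
lemma exists_part {K : IntermediateField ℚ ℂ} (hK : Closed K) {ω₁ ω₂ : ℂ}
    (him : (ω₂ / ω₁).im ≠ 0) : ∃ (m : ℕ) (t' : Fin m → ℂ),
      (∀ l, t' l ∈ K ∧ t' l ∈ span ℚ (Set.range t)) ∧ tDim t ≤ tDim t' + modDim K t ∧
      expField t' ≤ bigField ω₁ ω₂ t p ⊓ K := by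
  classical
  obtain ⟨m, A, hAK, hdim⟩ := exists_const_basis K hK.kap t
  set t' : Fin m → ℂ := fun i => ∑ l, (A i l : ℂ) * t l with ht'
  have hspan : ∀ l, t' l ∈ span ℚ (Set.range t) := by
    intro i
    refine sum_mem fun l _ => ?_
    have h3 : (A i l : ℂ) * t l = (A i l : ℚ) • t l := by
      rw [Rat.smul_def]; push_cast; rfl
    rw [h3]
    exact smul_mem _ _ (subset_span ⟨l, rfl⟩)
  refine ⟨m, t', fun l => ⟨hAK l, hspan l⟩, hdim, ?_⟩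
  unfold expField
  rw [IntermediateField.adjoin_le_iff]
  rintro x ((hx | ⟨i, rfl⟩) | ⟨i, rfl⟩)
  · rw [Set.mem_singleton_iff] at hx
    rw [hx]
    exact ⟨big_pi' him t p, hK.kap⟩
  · exact ⟨sum_mem fun l _ => mul_mem (intCast_mem _ _) (big_t _ _ _ _ _), hAK i⟩
  · refine ⟨?_, closed_exp hK (hAK i)⟩
    have h2 : exp (t' i) = ∏ l, exp (t l) ^ (A i l) := by
      simp only [ht']
      rw [Complex.exp_sum]
      exact Finset.prod_congr rfl fun l _ => Complex.exp_int_mul _ _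
    change exp (t' i) ∈ _
    rw [h2]
    exact prod_mem fun l _ => zpow_mem (big_exp _ _ _ _ _) _

end fin

/-- **The final theorem, `j` in the field of constants.** -/
theorem fin_fix (hLin : StLin) (hLin2 : StLin2) (hAdd : StAdd) (hMul : StMul) :
    ∃ cl : Set ℂ → IntermediateField ℚ ℂ,
      (∀ S : Set ℂ, S ⊆ cl S) ∧ (∀ S T : Set ℂ, S ⊆ cl T → cl S ≤ cl T) ∧
      (∀ S x, x ∈ cl S → ∃ T : Finset ℂ, (T : Set ℂ) ⊆ S ∧ x ∈ cl (T : Set ℂ)) ∧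
      (∀ S, S.Countable → (cl S : Set ℂ).Countable) ∧
      (∀ S x, IsAlgebraic (cl S) x → x ∈ cl S) ∧
      (∀ S, ∀ ω₁ ∈ cl S, ∀ ω₂ ∈ cl S, ∀ (s n : ℕ) (t : Fin s → ℂ) (p : Fin n → ℂ),
        (∀ l, t l ∈ cl S) → (∀ i, p i ∈ cl S) → bigField ω₁ ω₂ t p ≤ cl S) ∧
      (∀ S ω₁ ω₂, (ω₂ / ω₁).im ≠ 0 → (jInv ω₁ ω₂ ∈ cl S ↔ ω₂ / ω₁ ∈ cl S)) ∧
      ∀ S : Set ℂ, S.Countable → ∀ ω₁ ω₂ : ℂ, (ω₂ / ω₁).im ≠ 0 → jInv ω₁ ω₂ ∈ cl S →
        ∀ (s n : ℕ) (t : Fin s → ℂ) (p : Fin n → ℂ) (r : ℕ) (z : Fin r → ℂ),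
        (∀ i, IsAlgebraic (bigField ω₁ ω₂ t p) (z i)) →
        (∀ i, z i ∉ cl (S ∪ z '' {j | j < i})) →
        ∀ R, R = max r (min 1 (modDim (cl S) t + modDim2 (cl S) ω₁ ω₂ p)) →
        (∀ d, HasTrdeg (bigField ω₁ ω₂ t p ⊓ cl S) d →
          HasTrdeg (bigField ω₁ ω₂ t p)
            (d + (modDim (cl S) t + modDim2 (cl S) ω₁ ω₂ p) + R)) ∧
        (∀ m, HasTrdeg (bigField 1 (ω₂ / ω₁) (![] : Fin 0 → ℂ) (![] : Fin 0 → ℂ)) m ∨ m = 1 →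
          tDim t + (open Classical in if IsCM ω₁ ω₂ then 2 else 4) + kDim2 ω₁ ω₂ p ≤
            m + (modDim (cl S) t + modDim2 (cl S) ω₁ ω₂ p) + R → Q1 ω₁ ω₂ t p) ∧
        ((∀ x ∈ span ℚ (Set.range t), x ∈ cl S → IsAlgebraic ℚ x) →
          (open Classical in if IsCM ω₁ ω₂ then 2 else 4) + kDim2 ω₁ ω₂ p ≤
            modDim2 (cl S) ω₁ ω₂ p + R → Q1 ω₁ ω₂ t p) := by
  classical
  refine ⟨cl, subset_cl, fun S T h => cl_min (closed_cl T) h, prf_ClF, prf_ClC,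
    fun S x => (closed_cl S).alg x, fun S ω₁ h1 ω₂ h2 s n t p ht hp =>
      closed_big (closed_cl S) h1 h2 ht hp, fun S ω₁ ω₂ him => closed_jiff (closed_cl S) him, ?_⟩
  intro S hS ω₁ ω₂ him hj s n t p r z hzL hz R hR
  have hτS : ω₂ / ω₁ ∈ cl S := (closed_jiff (closed_cl S) him).1 hj
  have main : ∀ d, HasTrdeg (bigField ω₁ ω₂ t p ⊓ cl S) d →
          HasTrdeg (bigField ω₁ ω₂ t p)
            (d + (modDim (cl S) t + modDim2 (cl S) ω₁ ω₂ p) + R) := by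
    intro d hd
    have h1 := all_fix (t := t) (p := p) hLin hLin2 hAdd hMul him hS hj z
      (fun i => mem_acl.2 (hzL i)) hz
    exact (h1.hasTrdeg hd).mono le_rfl (by rw [hR]; omega)
  have hle : bigField 1 (ω₂ / ω₁) (![] : Fin 0 → ℂ) (![] : Fin 0 → ℂ) ≤
      bigField ω₁ ω₂ t p ⊓ cl S :=
    le_inf (big_base' him t p) (closed_big (closed_cl S) (one_mem _) hτS (fun l => l.elim0)
      (fun l => l.elim0))
  have hpi : HasTrdeg (bigField 1 (ω₂ / ω₁) (![] : Fin 0 → ℂ) (![] : Fin 0 → ℂ)) 1 :=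
    ⟨fun _ => kap, fun _ => big_pi' (by rwa [div_one]) _ _, algInd_pi⟩
  refine ⟨main, fun m hm hle' => ?_, fun halg hle' => ?_⟩
  · have hm' : HasTrdeg (bigField 1 (ω₂ / ω₁) (![] : Fin 0 → ℂ) (![] : Fin 0 → ℂ)) m := by
      rcases hm with hm | rfl
      · exact hm
      · exact hpi
    exact (main m (hm'.mono hle le_rfl)).mono le_rfl hle'
  · obtain ⟨m, t', ht', hdim, hexp⟩ := exists_part (t := t) (p := p) (closed_cl S) him
    have h3 := tbound2 t' (Or.inl fun l => halg _ (ht' l).2 (ht' l).1)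
    exact (main _ (h3.mono hexp le_rfl)).mono le_rfl (by omega)

/-- **The final theorem, `j` not in the field of constants.** -/
theorem fin_mov (hLin : StLin) (hLin2 : StLin2) (hLin3 : StLin3) (hAdd : StAdd) (hMul : StMul) :
    ∃ cl : Set ℂ → IntermediateField ℚ ℂ,
      (∀ S : Set ℂ, S ⊆ cl S) ∧ (∀ S T : Set ℂ, S ⊆ cl T → cl S ≤ cl T) ∧
      (∀ S x, x ∈ cl S → ∃ T : Finset ℂ, (T : Set ℂ) ⊆ S ∧ x ∈ cl (T : Set ℂ)) ∧
      (∀ S, S.Countable → (cl S : Set ℂ).Countable) ∧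
      (∀ S x, IsAlgebraic (cl S) x → x ∈ cl S) ∧
      (∀ S, ∀ ω₁ ∈ cl S, ∀ ω₂ ∈ cl S, ∀ (s n : ℕ) (t : Fin s → ℂ) (p : Fin n → ℂ),
        (∀ l, t l ∈ cl S) → (∀ i, p i ∈ cl S) → bigField ω₁ ω₂ t p ≤ cl S) ∧
      (∀ S ω₁ ω₂, (ω₂ / ω₁).im ≠ 0 → (jInv ω₁ ω₂ ∈ cl S ↔ ω₂ / ω₁ ∈ cl S)) ∧
      ∀ S : Set ℂ, S.Countable → ∀ ω₁ ω₂ : ℂ, (ω₂ / ω₁).im ≠ 0 → jInv ω₁ ω₂ ∉ cl S →
        ¬ IsCM ω₁ ω₂ ∧
        ∀ (s n : ℕ) (t : Fin s → ℂ) (p : Fin n → ℂ) (r : ℕ) (z : Fin r → ℂ),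
        (∀ i, IsAlgebraic (bigField ω₁ ω₂ t p) (z i)) →
        (∀ i, z i ∉ cl (S ∪ z '' {j | j < i})) →
        (∀ d, HasTrdeg (bigField ω₁ ω₂ t p ⊓ cl S) d →
          HasTrdeg (bigField ω₁ ω₂ t p)
            (d + modDim (cl S) t + 3 + max 1 r + 2 * pDim ω₁ ω₂ p)) ∧
        ((∀ (m : ℕ) (t' : Fin m → ℂ), (∀ l, t' l ∈ cl S ∧ t' l ∈ span ℚ (Set.range t)) →
            HasTrdeg (expField t') (tDim t')) → Q1 ω₁ ω₂ t p) ∧
        ((∀ x ∈ span ℚ (Set.range t), x ∈ cl S → IsAlgebraic ℚ x) ∨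
            tDim t ≤ modDim (cl S) t + max 1 r → Q1 ω₁ ω₂ t p) := by
  classical
  refine ⟨cl, subset_cl, fun S T h => cl_min (closed_cl T) h, prf_ClF, prf_ClC,
    fun S x => (closed_cl S).alg x, fun S ω₁ h1 ω₂ h2 s n t p ht hp =>
      closed_big (closed_cl S) h1 h2 ht hp, fun S ω₁ ω₂ him => closed_jiff (closed_cl S) him, ?_⟩
  intro S hS ω₁ ω₂ him hj
  have hCM : ¬ IsCM ω₁ ω₂ := closed_not_CM (closed_cl S) him hj
  refine ⟨hCM, ?_⟩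
  intro s n t p r z hzL hz
  have main : ∀ d, HasTrdeg (bigField ω₁ ω₂ t p ⊓ cl S) d →
          HasTrdeg (bigField ω₁ ω₂ t p)
            (d + modDim (cl S) t + 3 + max 1 r + 2 * pDim ω₁ ω₂ p) := by
    intro d hd
    have h1 := all_mov (t := t) (p := p) hLin hLin2 hLin3 hAdd hMul him hS hj z
      (fun i => mem_acl.2 (hzL i)) hz
    exact (h1.hasTrdeg hd).mono le_rfl (by omega)
  have hk : kDim2 ω₁ ω₂ p = 2 * pDim ω₁ ω₂ p := by
    unfold kDim2 pDim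
    rw [if_neg hCM]
  have hQ : ∀ d, tDim t + 4 + 2 * pDim ω₁ ω₂ p ≤ d → HasTrdeg (bigField ω₁ ω₂ t p) d →
      Q1 ω₁ ω₂ t p := by
    intro d hd h
    unfold Q1
    rw [if_neg hCM, hk]
    exact h.mono le_rfl hd
  have sch : (∀ (m : ℕ) (t' : Fin m → ℂ), (∀ l, t' l ∈ cl S ∧ t' l ∈ span ℚ (Set.range t)) →
            HasTrdeg (expField t') (tDim t')) → Q1 ω₁ ω₂ t p := by
    intro hsch
    obtain ⟨m, t', ht', hdim, hexp⟩ := exists_part (t := t) (p := p) (closed_cl S) him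
    refine hQ _ ?_ (main _ ((hsch m t' ht').mono hexp le_rfl))
    omega
  refine ⟨main, sch, ?_⟩
  rintro (h | h)
  · exact sch fun m t' h' => tbound2 t' (Or.inl fun l => h _ (h' l).2 (h' l).1)
  · have hpi : HasTrdeg (bigField ω₁ ω₂ t p ⊓ cl S) 1 :=
      ⟨fun _ => kap, fun _ => ⟨big_pi' him _ _, (closed_cl S).kap⟩, algInd_pi⟩
    refine hQ _ ?_ (main 1 hpi)
    omega

end Pool.Agent.Work.MP_8da9ea_nt.CD
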