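import Pool.Agent.Work.MP_8da9ea_nt.CD.End

/-!
# The elliptico-toric inequality for curves over the field of constants, with closure rank
-/

set_option autoImplicit false

namespace Pool.Agent.Work.MP_8da9ea_nt.CD.FixedCurveRank

open Pool.Agent.Work.MP_8da9ea_nt

/-- There is a closure operator `cl`, from sets of complex numbers to subfields of `ℂ` (increasing,
monotone, idempotent, finitary, with countable values on countable sets), whose values are
algebraically closed in `ℂ`, contain the field `B = K(ω₁, ω₂, η₁, η₂)` of the problem whenever they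
contain its data `ω₁`, `ω₂`, `t`, `p`, and contain the `j`-invariant of a lattice if and only if they
contain `ω₂ / ω₁`, such that the following holds for every countable `S`, with `F = cl S`, for every
lattice whose `j`-invariant is in `F` (in particular for every lattice with complex multiplication,
and for every lattice with algebraic invariants) and for all `t`, `p`. Let
`δ = dim ⟨t⟩ + 2 dim ⟨p⟩`, the first dimension over `ℚ` modulo `F`, the second over the field of
endomorphisms, of the `p i / ω₁` modulo `F`. Let `z 0, …, z (r - 1)` be numbers which are algebraic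
over `B` and independent over `S` for the closure operator: no `z i` is in the closure of
`S ∪ {z j | j < i}`. Put `R = max r (min 1 δ)`.
* The transcendence degree of `B` is at least the transcendence degree of `B ∩ F` plus `δ + R`.
* The inequality of the problem holds if `dim ⟨t⟩ + 4 / [k : ℚ] + 2 dim ⟨p⟩ ≤ m + δ + R`, where `m` is
  the transcendence degree of the field of periods of the lattice `ℤ + ℤ (ω₂ / ω₁)`, or `m = 1`. So it
  holds for `r ≥ 3` whenever the dimensions modulo `F` are those of the problem.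
* It also holds if all elements of the span of `t` in `F` are algebraic and `4 / [k : ℚ] + 2 dim ⟨p⟩` is
  at most `R` plus the second dimension modulo `F`. -/
theorem result :
    ∃ cl : Set ℂ → IntermediateField ℚ ℂ,
      (∀ S : Set ℂ, S ⊆ cl S) ∧ (∀ S T : Set ℂ, S ⊆ cl T → cl S ≤ cl T) ∧
      (∀ S x, x ∈ cl S → ∃ T : Finset ℂ, (T : Set ℂ) ⊆ S ∧ x ∈ cl (T : Set ℂ)) ∧
      (∀ S, S.Countable → (cl S : Set ℂ).Countable) ∧
      (∀ S x, IsAlgebraic (cl S) x → x ∈ cl S) ∧
      (∀ S, ∀ ω₁ ∈ cl S, ∀ ω₂ ∈ cl S, ∀ (s n : ℕ) (t : Fin s → ℂ) (p : Fin n → ℂ),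
        (∀ l, t l ∈ cl S) → (∀ i, p i ∈ cl S) → bigField ω₁ ω₂ t p ≤ cl S) ∧
      (∀ S ω₁ ω₂, (ω₂ / ω₁).im ≠ 0 → (jInv ω₁ ω₂ ∈ cl S ↔ ω₂ / ω₁ ∈ cl S)) ∧
      ∀ S : Set ℂ, S.Countable → ∀ ω₁ ω₂ : ℂ, (ω₂ / ω₁).im ≠ 0 → jInv ω₁ ω₂ ∈ cl S →
        ∀ (s n : ℕ) (t : Fin s → ℂ) (p : Fin n → ℂ) (r : ℕ) (z : Fin r → ℂ),
        (∀ i, IsAlgebraic (bigField ω₁ ω₂ t p) (z i)) →
        (∀ i, z i ∉ cl (S ∪ z '' {j | j < i})) →
        ∀ R, R = max r (min 1 (modDim (cl S) t + modDim2 (cl S) ω₁ ω₂ p)) →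
        (∀ d, HasTrdeg (bigField ω₁ ω₂ t p ⊓ cl S) d →
          HasTrdeg (bigField ω₁ ω₂ t p)
            (d + (modDim (cl S) t + modDim2 (cl S) ω₁ ω₂ p) + R)) ∧
        (∀ m, HasTrdeg (bigField 1 (ω₂ / ω₁) (![] : Fin 0 → ℂ) (![] : Fin 0 → ℂ)) m ∨ m = 1 →
          tDim t + (open Classical in if IsCM ω₁ ω₂ then 2 else 4) + kDim2 ω₁ ω₂ p ≤
            m + (modDim (cl S) t + modDim2 (cl S) ω₁ ω₂ p) + R → Q1 ω₁ ω₂ t p) ∧
        ((∀ x ∈ Submodule.span ℚ (Set.range t), x ∈ cl S → IsAlgebraic ℚ x) →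
          (open Classical in if IsCM ω₁ ω₂ then 2 else 4) + kDim2 ω₁ ω₂ p ≤
            modDim2 (cl S) ω₁ ω₂ p + R → Q1 ω₁ ω₂ t p) :=
  CD.fin_fix CD.prf_Lin CD.prf_Lin2 CD.prf_Add CD.end_Mul

end Pool.Agent.Work.MP_8da9ea_nt.CD.FixedCurveRank
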