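import Pool.Agent.Work.MP_8da9ea_nt.CD.End

/-!
# The elliptico-toric inequality for curves with generic invariant, with closure rank
-/

set_option autoImplicit false

namespace Pool.Agent.Work.MP_8da9ea_nt.CD.GenericCurveRank

open Pool.Agent.Work.MP_8da9ea_nt

/-- There is a closure operator `cl`, from sets of complex numbers to subfields of `ℂ` (increasing,
monotone, idempotent, finitary, with countable values on countable sets), whose values are
algebraically closed in `ℂ`, contain the field `B = K(ω₁, ω₂, η₁, η₂)` of the problem whenever they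
contain its data `ω₁`, `ω₂`, `t`, `p`, and contain the `j`-invariant of a lattice if and only if they
contain `ω₂ / ω₁`, such that the following holds for every countable `S`, with `F = cl S`, for every
lattice whose `j`-invariant is not in `F` and for all `t`, `p`. The lattice has no complex
multiplication. Let `z 0, …, z (r - 1)` be numbers which are algebraic over `B` and independent over
`S` for the closure operator: no `z i` is in the closure of `S ∪ {z j | j < i}`.
* The transcendence degree of `B` is at least the transcendence degree of `B ∩ F` plus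
  `dim ⟨t⟩ + 3 + max 1 r + 2 dim ⟨p⟩`, where the first dimension is taken modulo `F`.
* The inequality of the problem follows from Schanuel's inequality for the tuples of elements of `F`
  in the span of `t`.
* In particular it holds if these elements are algebraic, or if `dim ⟨t⟩` exceeds the dimension
  modulo `F` by at most `max 1 r`. -/
theorem result :
    ∃ cl : Set ℂ → IntermediateField ℚ ℂ,
      (∀ S : Set ℂ, S ⊆ cl S) ∧ (∀ S T : Set ℂ, S ⊆ cl T → cl S ≤ cl T) ∧
      (∀ S x, x ∈ cl S → ∃ T : Finset ℂ, (T : Set ℂ) ⊆ S ∧ x ∈ cl (T : Set ℂ)) ∧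
      (∀ S, S.Countable → (cl S : Set ℂ).Countable) ∧
      (∀ S x, IsAlgebraic (cl S) x → x ∈ cl S) ∧
      (∀ S, ∀ ω₁ ∈ cl S, ∀ ω₂ ∈ cl S, ∀ (s n : ℕ) (t : Fin s → ℂ) (p : Fin n → ℂ),
        (∀ l, t l ∈ cl S) → (∀ i, p i ∈ cl S) → bigField ω₁ ω₂ t p ≤ cl S) ∧
      (∀ S ω₁ ω₂, (ω₂ / ω₁).im ≠ 0 → (jInv ω₁ ω₂ ∈ cl S ↔ ω₂ / ω₁ ∈ cl S)) ∧
      ∀ S : Set ℂ, S.Countable → ∀ ω₁ ω₂ : ℂ, (ω₂ / ω₁).im ≠ 0 → jInv ω₁ ω₂ ∉ cl S →
        ¬ IsCM ω₁ ω₂ ∧
        ∀ (s n : ℕ) (t : Fin s → ℂ) (p : Fin n → ℂ) (r : ℕ) (z : Fin r → ℂ),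
        (∀ i, IsAlgebraic (bigField ω₁ ω₂ t p) (z i)) →
        (∀ i, z i ∉ cl (S ∪ z '' {j | j < i})) →
        (∀ d, HasTrdeg (bigField ω₁ ω₂ t p ⊓ cl S) d →
          HasTrdeg (bigField ω₁ ω₂ t p)
            (d + modDim (cl S) t + 3 + max 1 r + 2 * pDim ω₁ ω₂ p)) ∧
        ((∀ (m : ℕ) (t' : Fin m → ℂ),
            (∀ l, t' l ∈ cl S ∧ t' l ∈ Submodule.span ℚ (Set.range t)) →
            HasTrdeg (expField t') (tDim t')) → Q1 ω₁ ω₂ t p) ∧
        ((∀ x ∈ Submodule.span ℚ (Set.range t), x ∈ cl S → IsAlgebraic ℚ x) ∨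
            tDim t ≤ modDim (cl S) t + max 1 r → Q1 ω₁ ω₂ t p) :=
  CD.fin_mov CD.prf_Lin CD.prf_Lin2 CD.prf_Lin3 CD.prf_Add CD.end_Mul

end Pool.Agent.Work.MP_8da9ea_nt.CD.GenericCurveRank
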