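import Pool.Agent.Work.MP_8da9ea_nt.CD.Cl

/-!
# Closure dimension: one level
-/

set_option autoImplicit false

namespace Pool.Agent.Work.MP_8da9ea_nt.CD

open Complex Submodule

/-- independence over a union of a chain of fields -/
lemma indep_chain {K : IntermediateField ℚ ℂ} {k : ℕ → IntermediateField ℚ ℂ} (hk : Monotone k)
    (hle : ∀ j, k j ≤ K) (hfin : ∀ s : Finset ℂ, (∀ x ∈ s, x ∈ K) → ∃ j, ∀ x ∈ s, x ∈ k j)
    {σ : Type*} (y : σ → ℂ) (h : ∀ i, ∃ j, i ≤ j ∧ AlgebraicIndependent (k j) y) :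
    AlgebraicIndependent K y := by
  classical
  rw [algebraicIndependent_iff]
  intro P hP
  obtain ⟨i, hi⟩ := hfin (P.coeffs.image (fun c : K => (c : ℂ))) (by
      intro x hx
      obtain ⟨c, -, rfl⟩ := Finset.mem_image.1 hx
      exact c.2)
  have hmem : P ∈ Set.range (MvPolynomial.map
      (IntermediateField.inclusion (hle i) : k i →+* K)) := by
    rw [MvPolynomial.mem_range_map_iff_coeffs_subset]
    intro c hc
    exact ⟨⟨c, hi _ (Finset.mem_image_of_mem _ hc)⟩, rfl⟩
  obtain ⟨Q, hQ⟩ := hmem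
  obtain ⟨j, hij, hj⟩ := h i
  have h1 : MvPolynomial.aeval y (MvPolynomial.map
      (IntermediateField.inclusion (hk hij) : k i →+* k j) Q) = 0 := by
    rw [MvPolynomial.aeval_def, MvPolynomial.eval₂_map]
    rw [← hQ, MvPolynomial.aeval_def, MvPolynomial.eval₂_map] at hP
    exact hP
  have h2 := (algebraicIndependent_iff.1 hj) _ h1
  have h3 := (map_eq_zero_iff _ (MvPolynomial.map_injective _
    (IntermediateField.inclusion (hk hij) : k i →+* k j).injective)).1 h2
  rw [← hQ, h3, map_zero]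

/-- a closed countable field is the union of a chain of finitely generated fields -/
lemma exists_chain {K : IntermediateField ℚ ℂ} (hK : Closed K) (hc : Countable K) :
    ∃ s : ℕ → Finset ℂ, (∀ j, (s j : Set ℂ) ⊆ K) ∧ Monotone (fun j => fgF (s j)) ∧
      ∀ u : Finset ℂ, (∀ x ∈ u, x ∈ K) → ∃ j, ∀ x ∈ u, x ∈ fgF (s j) := by
  classical
  have hc' : ((K : IntermediateField ℚ ℂ) : Set ℂ).Countable := Set.to_countable _
  obtain ⟨f, hf⟩ := hc'.exists_eq_range ⟨kap, hK.kap⟩
  have hmono : Monotone (fun j => (Finset.range j).image f) := fun i j hij =>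
    Finset.image_subset_image (Finset.range_mono hij)
  refine ⟨fun j => (Finset.range j).image f, ?_, fun i j hij => fgF_mono (hmono hij), ?_⟩
  · intro j x hx
    simp only [Finset.coe_image, Set.mem_image] at hx
    obtain ⟨i, -, rfl⟩ := hx
    rw [hf]
    exact ⟨i, rfl⟩
  · intro u hu
    induction u using Finset.induction_on with
    | empty => exact ⟨0, by simp⟩
    | insert a u _ ih =>
      obtain ⟨j, hj⟩ := ih fun x hx => hu x (Finset.mem_insert_of_mem hx)
      have ha : a ∈ Set.range f := by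
        rw [← hf]
        exact hu a (Finset.mem_insert_self a u)
      obtain ⟨i, rfl⟩ := ha
      refine ⟨max (i + 1) j, fun x hx => ?_⟩
      rcases Finset.mem_insert.1 hx with rfl | h
      · refine mem_fgF ?_
        exact Finset.mem_image_of_mem _ (Finset.mem_range.2 (by omega))
      · exact fgF_mono (hmono (le_max_right _ _)) (hj x h)

theorem prf_Fix : StFix := by
  classical
  intro K hK hc n s τ hτ hτK z t hns hz ht
  obtain ⟨u, huK, hum, hfin⟩ := exists_chain hK hc
  have hg : gg2 τ ∈ K := mul_mem (ofNat_mem K 60) (closed_g4 hK (one_mem K) hτK)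
  obtain ⟨j0, hj0⟩ := hfin {τ, gg2 τ} (by
    intro x hx
    simp only [Finset.mem_insert, Finset.mem_singleton] at hx
    rcases hx with rfl | rfl
    · exact hτK
    · exact hg)
  have hjτ := hj0 τ (by simp)
  have hjg := hj0 (gg2 τ) (by simp)
  have h1 : ∀ j, ∃ S : Finset ((Fin 3 × Fin n) ⊕ (Fin 2 × Fin s)),
        AlgebraicIndependent (fgF (u (j + j0)))
          (fun i : S => fxF z (fun i => wp 1 τ (z i)) (fun i => zt 1 τ (z i)) t
            (fun j => exp (t j)) i) ∧
        2 * n + s + 1 ≤ S.card := by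
    intro j
    have hcj := fgF_countable (u (j + j0))
    exact fix_chain (FX := fx_prop) _ hτ (hum (Nat.le_add_left j0 j) hjτ)
      (hum (Nat.le_add_left j0 j) hjg) n s z t hns
      (fun g hg hm => hz g hg (hK.op _ (huK _) hm)) (fun m hm => ht m (hK.op _ (huK _) hm))
  obtain ⟨S, hS⟩ := exists_of_finite _ h1
  refine ⟨S, indep_chain hum (fun j => fgF_le hK (huK j)) hfin _ fun i => ?_, ?_⟩
  · obtain ⟨j, hij, hj⟩ := hS i
    exact ⟨j + j0, by omega, hj.1⟩
  · obtain ⟨j, _, hj⟩ := hS 0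
    exact hj.2

theorem prf_Mov : StMov := by
  classical
  intro K hK hc n s τ hτ hτK z t hz ht
  obtain ⟨u, huK, hum, hfin⟩ := exists_chain hK hc
  have h1 : ∀ j, ∃ S : Finset (Fin 4 ⊕ ((Fin 3 × Fin n) ⊕ (Fin 2 × Fin s))),
        AlgebraicIndependent (fgF (u j))
          (fun i : S => asF τ (et τ) (gg2 τ) (gg3 τ) z (fun i => wp 1 τ (z i))
            (fun i => zt 1 τ (z i)) t (fun j => exp (t j)) i) ∧
        4 + 2 * n + s ≤ S.card := by
    intro j
    have hcj := fgF_countable (u j)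
    exact mov_chain _ (kap_fgF _) n s τ hτ (fun h => hτK (hK.op _ (huK j) (Or.inl h))) z hz t
      (fun m hm => ht m (hK.op _ (huK j) (Or.inl hm)))
  obtain ⟨S, hS⟩ := exists_of_finite _ h1
  refine ⟨S, indep_chain hum (fun j => fgF_le hK (huK j)) hfin _ fun i => ?_, ?_⟩
  · obtain ⟨j, hij, hj⟩ := hS i
    exact ⟨j, hij, hj.1⟩
  · obtain ⟨j, _, hj⟩ := hS 0
    exact hj.2

end Pool.Agent.Work.MP_8da9ea_nt.CD
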