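import Pool.Agent.Work.MP_8da9ea_nt.CD.Asm

/-!
# Closure dimension: the theorems in the upper half plane
-/

set_option autoImplicit false

namespace Pool.Agent.Work.MP_8da9ea_nt.CD

open Complex Submodule

lemma image_lt_zero {r : ℕ} (z : Fin (r + 1) → ℂ) : z '' {j | j < 0} = ∅ := by
  rw [Set.image_eq_empty]
  ext j
  simp only [Set.mem_ofPred_eq, Set.mem_empty_iff_false, iff_false, not_lt]
  exact Fin.zero_le j

lemma image_lt_succ {r : ℕ} (z : Fin (r + 1) → ℂ) (S : Set ℂ) (i : Fin r) :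
    S ∪ z '' {j | j < i.succ} = insert (z 0) S ∪ (fun j => z j.succ) '' {j | j < i} := by
  ext x
  constructor
  · rintro (h | ⟨j, hj, rfl⟩)
    · exact Or.inl (Or.inr h)
    · rcases Fin.eq_zero_or_eq_succ j with rfl | ⟨j', rfl⟩
      · exact Or.inl (Or.inl rfl)
      · exact Or.inr ⟨j', Fin.succ_lt_succ_iff.1 hj, rfl⟩
  · rintro ((rfl | h) | ⟨j, hj, rfl⟩)
    · exact Or.inr ⟨0, Fin.succ_pos i, rfl⟩
    · exact Or.inl h
    · exact Or.inr ⟨j.succ, Fin.succ_lt_succ_iff.2 hj, rfl⟩

section main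

variable {s n : ℕ} {ω₁ τ : ℂ} {t : Fin s → ℂ} {p : Fin n → ℂ}

/-- **The theorem on a fixed curve, with closure rank.** -/
theorem asm_fix (hLin : StLin) (hLin2 : StLin2) (hAdd : StAdd) (hMul : StMul) (h1 : ω₁ ≠ 0)
    (hτ : 0 < τ.im) : ∀ (r : ℕ) (S : Set ℂ), S.Countable → τ ∈ cl S → ∀ z : Fin r → ℂ,
      (∀ i, z i ∈ acl (bigField ω₁ (ω₁ * τ) t p)) → (∀ i, z i ∉ cl (S ∪ z '' {j | j < i})) →
      RelTr (acl (bigField ω₁ (ω₁ * τ) t p)) (cl S)
        (modDim (cl S) t + modDim2 (cl S) ω₁ (ω₁ * τ) p + r) := by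
  intro r
  induction r with
  | zero =>
    intro S hS hτS z _ _
    have hc : Countable (cl S) := (prf_ClC S hS).to_subtype
    exact (base_fix h1 hτ (closed_cl S) hc hτS).mono le_rfl le_rfl (by omega)
  | succ r ih =>
    intro S hS hτS z hzL hz
    have hc : Countable (cl S) := (prf_ClC S hS).to_subtype
    have hle : cl S ≤ cl (insert (z 0) S) := cl_mono (Set.subset_insert _ _)
    have hz0 : z 0 ∉ cl S := by
      have h := hz 0
      rwa [image_lt_zero, Set.union_empty] at h
    obtain ⟨e, he, hd⟩ := step_fix (t := t) (p := p) hLin hLin2 hAdd hMul h1 hτ (closed_cl S) hc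
      (closed_cl (insert (z 0) S)) hle hτS (hzL 0) (subset_cl _ (Set.mem_insert _ _)) hz0
    have hrec := ih (insert (z 0) S) (hS.insert _) (hle hτS) (fun j => z j.succ)
      (fun i => hzL _) (fun i h => hz i.succ (by rw [image_lt_succ]; exact h))
    have h := he.tower inf_le_right inf_le_left hle hrec
    exact h.mono le_rfl le_rfl (by omega)

/-- **The theorem on a moving curve, with closure rank.** -/
theorem asm_mov (hLin : StLin) (hLin2 : StLin2) (hLin3 : StLin3) (hAdd : StAdd) (hMul : StMul)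
    (h1 : ω₁ ≠ 0) (hτ : 0 < τ.im) :
    ∀ (r : ℕ) (S : Set ℂ), S.Countable → τ ∉ cl S → ∀ z : Fin r → ℂ,
      (∀ i, z i ∈ acl (bigField ω₁ (ω₁ * τ) t p)) → (∀ i, z i ∉ cl (S ∪ z '' {j | j < i})) →
      RelTr (acl (bigField ω₁ (ω₁ * τ) t p)) (cl S)
        (modDim (cl S) t + 3 + 2 * pDim ω₁ (ω₁ * τ) p + max 1 r) := by
  intro r
  induction r with
  | zero =>
    intro S hS hτS z _ _
    have hc : Countable (cl S) := (prf_ClC S hS).to_subtype
    have hle : cl S ≤ cl (insert τ S) := cl_mono (Set.subset_insert _ _)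
    have hτ' : τ ∈ cl (insert τ S) := subset_cl _ (Set.mem_insert _ _)
    obtain ⟨a, b, hab, h3, h4⟩ := base_mov (t := t) (p := p) hLin3 hLin hAdd hMul h1 hτ
      (closed_cl S) hc hτS hle hτ' (closed_cl _)
    have hc' : Countable (cl (insert τ S)) := (prf_ClC _ (hS.insert _)).to_subtype
    have h5 := base_fix (t := t) (p := p) h1 hτ (closed_cl (insert τ S)) hc' hτ'
    exact (hab.tower inf_le_right inf_le_left hle h5).mono le_rfl le_rfl (by omega)
  | succ r ih =>
    intro S hS hτS z hzL hz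
    have hc : Countable (cl S) := (prf_ClC S hS).to_subtype
    have hle : cl S ≤ cl (insert (z 0) S) := cl_mono (Set.subset_insert _ _)
    have hz0 : z 0 ∉ cl S := by
      have h := hz 0
      rwa [image_lt_zero, Set.union_empty] at h
    by_cases hτ' : τ ∈ cl (insert (z 0) S)
    · obtain ⟨a, b, hab, h3, h4⟩ := base_mov (t := t) (p := p) hLin3 hLin hAdd hMul h1 hτ
        (closed_cl S) hc hτS hle hτ' (closed_cl _)
      have hrec := asm_fix (t := t) (p := p) hLin hLin2 hAdd hMul h1 hτ r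
        (insert (z 0) S) (hS.insert _) hτ' (fun j => z j.succ) (fun i => hzL _)
        (fun i h => hz i.succ (by rw [image_lt_succ]; exact h))
      exact (hab.tower inf_le_right inf_le_left hle hrec).mono le_rfl le_rfl (by omega)
    · obtain ⟨e, he, hd⟩ := step_exp (t := t) (p := p) (τ := τ) (ω₁ := ω₁) hLin (closed_cl S) hc
        (closed_cl (insert (z 0) S)) hle (hzL 0) (subset_cl _ (Set.mem_insert _ _)) hz0
      have hrec := ih (insert (z 0) S) (hS.insert _) hτ' (fun j => z j.succ)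
        (fun i => hzL _) (fun i h => hz i.succ (by rw [image_lt_succ]; exact h))
      exact (he.tower inf_le_right inf_le_left hle hrec).mono le_rfl le_rfl (by omega)

end main

end Pool.Agent.Work.MP_8da9ea_nt.CD
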