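import Pool.Agent.Work.MP_8da9ea_nt.CD.Lev

/-!
# Closure dimension: relative transcendence degree
-/

set_option autoImplicit false

namespace Pool.Agent.Work.MP_8da9ea_nt.CD

open Complex Submodule

/-- the algebraic closure in `ℂ` -/
noncomputable def acl (B : IntermediateField ℚ ℂ) : IntermediateField ℚ ℂ :=
  (algebraicClosure B ℂ).restrictScalars ℚ

lemma mem_acl {B : IntermediateField ℚ ℂ} {x : ℂ} : x ∈ acl B ↔ IsAlgebraic B x :=
  mem_algebraicClosure_iff

lemma le_acl (B : IntermediateField ℚ ℂ) : B ≤ acl B := fun x hx =>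
  mem_acl.2 (isAlgebraic_algebraMap (⟨x, hx⟩ : B))

lemma AC_acl (B : IntermediateField ℚ ℂ) : AC (acl B) := by
  intro x hx
  have h1 : IsAlgebraic (algebraicClosure B ℂ) x := hx
  exact mem_acl.2 (h1.restrictScalars B)

lemma hasTrdeg_acl {B : IntermediateField ℚ ℂ} {d : ℕ} (h : HasTrdeg (acl B) d) :
    HasTrdeg B d := by
  obtain ⟨x, hx, hxi⟩ := h
  set x' : Fin d → algebraicClosure B ℂ := fun j => ⟨x j, hx j⟩ with hx'
  have h1 : AlgebraicIndependent ℚ x' := by
    refine AlgebraicIndependent.of_comp ((algebraicClosure B ℂ).val.restrictScalars ℚ) ?_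
    exact hxi
  have h2 : (d : Cardinal) ≤ Algebra.trdeg ℚ (algebraicClosure B ℂ) := by
    have := h1.lift_cardinalMk_le_trdeg
    simpa using this
  have i1 : FaithfulSMul B (algebraicClosure B ℂ) :=
    (faithfulSMul_iff_algebraMap_injective _ _).2 (algebraMap B (algebraicClosure B ℂ)).injective
  have i2 : FaithfulSMul ℚ B :=
    (faithfulSMul_iff_algebraMap_injective _ _).2 (algebraMap ℚ B).injective
  have h3 : Algebra.trdeg ℚ B + Algebra.trdeg B (algebraicClosure B ℂ) =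
      Algebra.trdeg ℚ (algebraicClosure B ℂ) := trdeg_add_eq ℚ B
  have h4 : Algebra.trdeg B (algebraicClosure B ℂ) = 0 := trdeg_eq_zero
  rw [h4, add_zero] at h3
  rw [← h3] at h2
  obtain ⟨s, hs⟩ := exists_isTranscendenceBasis ℚ B
  rw [← hs.cardinalMk_eq_trdeg] at h2
  have h5 : Cardinal.lift.{0} (Cardinal.mk (Fin d)) ≤ Cardinal.lift.{0} (Cardinal.mk s) := by
    simpa using h2
  obtain ⟨f⟩ := Cardinal.lift_mk_le'.1 h5
  refine ⟨fun j => ((f j : B) : ℂ), fun j => (f j : B).2, ?_⟩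
  have h6 : AlgebraicIndependent ℚ (fun j => (f j : B)) := hs.1.comp _ f.injective
  exact h6.map' (f := B.val) B.val.injective

lemma RelTr.mono {L L' K K' : IntermediateField ℚ ℂ} {d d' : ℕ} (h : RelTr L K d) (hL : L ≤ L')
    (hK : K' ≤ K) (hd : d' ≤ d) : RelTr L' K' d' := by
  obtain ⟨x, hx, hxi⟩ := h
  exact ⟨fun j => x (Fin.castLE hd j), fun j => hL (hx _),
    (indep_mono hK hxi).comp _ (Fin.castLE_injective hd)⟩

lemma relTr_zero (L K : IntermediateField ℚ ℂ) : RelTr L K 0 :=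
  ⟨fun i => i.elim0, fun i => i.elim0, algebraicIndependent_empty_type_iff.2
    (algebraMap K ℂ).injective⟩

lemma relTr_of_family {L K : IntermediateField ℚ ℂ} {κ : Type*} [Fintype κ] {y : κ → ℂ}
    (hy : AlgebraicIndependent K y) (hyL : ∀ j, y j ∈ L) {d : ℕ} (hd : d ≤ Fintype.card κ) :
    RelTr L K d := by
  have h1 : RelTr L K (Fintype.card κ) :=
    ⟨fun j => y ((Fintype.equivFin κ).symm j), fun j => hyL _, hy.comp _ (Equiv.injective _)⟩
  exact h1.mono le_rfl le_rfl hd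

lemma relTr_one {L K : IntermediateField ℚ ℂ} (hK : AC K) {x : ℂ} (hx : x ∈ L) (hxK : x ∉ K) :
    RelTr L K 1 := by
  refine ⟨fun _ => x, fun _ => hx, ?_⟩
  rw [algebraicIndependent_unique_type_iff]
  exact fun h => hxK (hK x h)

lemma RelTr.tower {L L' K K' : IntermediateField ℚ ℂ} {d d' : ℕ} (h1 : RelTr L' K d)
    (hL' : L' ≤ K') (hLL : L' ≤ L) (hKK : K ≤ K') (h2 : RelTr L K' d') : RelTr L K (d + d') := by
  obtain ⟨x, hx, hxi⟩ := h1
  obtain ⟨y, hy, hyi⟩ := h2
  let _ : Algebra K K' := (IntermediateField.inclusion hKK).toAlgebra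
  have : IsScalarTower K K' ℂ := IsScalarTower.of_algebraMap_eq fun _ => rfl
  have hs : AlgebraicIndependent K (Sum.elim y x) := by
    refine hxi.sumElim_of_tower (S := K') ?_ hyi
    rintro _ ⟨j, rfl⟩
    exact ⟨⟨x j, hL' (hx j)⟩, rfl⟩
  refine relTr_of_family hs ?_ (by simp [add_comm])
  rintro (j | j)
  · exact hy j
  · exact hLL (hx j)

lemma RelTr.hasTrdeg {B K : IntermediateField ℚ ℂ} {e d : ℕ} (he : HasTrdeg (B ⊓ K) e)
    (h : RelTr (acl B) K d) : HasTrdeg B (e + d) := by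
  refine hasTrdeg_acl ?_
  obtain ⟨u, hu, hui⟩ := he
  obtain ⟨x, hx, hxi⟩ := h
  have hs : AlgebraicIndependent ℚ (Sum.elim x u) := by
    refine hui.sumElim_of_tower (S := K) ?_ hxi
    rintro _ ⟨j, rfl⟩
    exact ⟨⟨u j, (hu j).2⟩, rfl⟩
  let e' : Fin (e + d) ≃ Fin d ⊕ Fin e := finSumFinEquiv.symm.trans (Equiv.sumComm _ _)
  refine ⟨Sum.elim x u ∘ e', ?_, hs.comp _ e'.injective⟩
  intro j
  simp only [Function.comp_apply]
  rcases e' j with i | i
  · exact hx i
  · exact le_acl _ (hu i).1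

end Pool.Agent.Work.MP_8da9ea_nt.CD
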